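import Pool.Agent.N809.PG.Ded
import Pool.Agent.N969.P17G.Defs

/-!
The class number formula for the boundary terms (P17G, CNFG).
-/

set_option autoImplicit false

open Finset

namespace Pool.Agent.N809.PG

open Pool.Agent.N972.P17
open Pool.Agent.N969.P17G
open Pool.Agent.N969.P15 (ep2 un)

lemma ep2_eq {n : ℕ} (h : n % 4 = 3) : ep2 n = jacobiSym 2 n := by
  have hno : Odd n := Nat.odd_iff.2 (by omega)
  rw [jacobiSym.at_two hno, ZMod.χ₈_nat_eq_if_mod_eight]
  unfold ep2
  have h1 : n % 8 = 3 ∨ n % 8 = 7 := by omega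
  rcases h1 with h1 | h1 <;> simp [h1] <;> omega

lemma jac_non {t m : ℕ} (hm : 0 < m) (h : ¬ Nat.Coprime t m) : jacobiSym (t : ℤ) m = 0 := by
  rw [jacobiSym.eq_zero_iff]
  refine ⟨by omega, ?_⟩
  rw [Int.gcd_natCast_natCast]
  exact h

lemma un_sum {m : ℕ} (f : ℕ → ℤ) :
    ∑ t ∈ un m, jacobiSym t m * f t = ∑ t ∈ range m, jacobiSym t m * f t := by
  unfold un
  rw [Finset.sum_filter]
  refine Finset.sum_congr rfl fun t ht => ?_
  split_ifs with h
  · rfl
  · have := Finset.mem_range.1 ht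
    rw [jac_non (by omega) h, zero_mul]

lemma cm_mul {A m : ℕ} (h : Pr A m) : Cm (A * m) := by
  obtain ⟨⟨hsqA, hA4, hA17⟩, ⟨h1, h2, h3⟩, hc⟩ := h
  refine ⟨(Nat.squarefree_mul hc).2 ⟨hsqA, h1⟩, ?_, ?_⟩
  · rw [Nat.mul_mod, hA4, h2]
  · push_cast
    rw [jacobiSym.mul_left, hA17, h3, one_mul]

/-- **CNFG**, the sum over the lattice points -/
theorem cnfg (hC : S_CNF) {A m : ℕ} (h : Pr A m) (hA : 1 < A) :
    6 * CS A m = rr ((A * m : ℕ) : ℤ) := by
  have hn := cm_mul h
  obtain ⟨⟨hsqA, hA4, hA17⟩, hm, hc⟩ := h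
  have hm4 := hm.2.1
  have hm1 : 1 < m := by omega
  have h1 := hC _ hn
  have h2 := ded_half hA hm1 hA4 hm4 hc (sum_sqf hA (Nat.odd_iff.2 (by omega)) hsqA)
  have h3 : 2 - ep2 (A * m) ≠ 0 := by
    unfold ep2
    split_ifs <;> norm_num
  apply mul_left_cancel₀ h3
  rw [← h1]
  change _ = 6 * HS (A * m)
  rw [← h2, ← ep2_eq hn.2.1]
  ring

/-- the sign of a difference without zero -/
lemma bd_inner {A m u : ℕ} (hA : 1 < A) (hm : 1 < m) (hc : Nat.Coprime A m) (hu : u < m)
    (hcu : Nat.Coprime u m) (hs : ∑ k ∈ range A, jacobiSym (k : ℤ) A = 0) :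
    bd A u m = 2 * ∑ k ∈ (range A).filter (fun k => k * m < A * u), jacobiSym (k : ℤ) A := by
  have e0 : ((u : ℤ) % (m : ℤ)) = u := Int.emod_eq_of_lt (by positivity) (by exact_mod_cast hu)
  unfold bd
  rw [e0]
  have h1 : ∀ C ∈ range A, jacobiSym (C : ℤ) A * Int.sign ((A : ℤ) * u - C * m) =
      2 * (if C * m < A * u then jacobiSym (C : ℤ) A else 0) - jacobiSym (C : ℤ) A := by
    intro C hC
    rcases lt_trichotomy (C * m) (A * u) with h | h | h
    · rw [if_pos h, Int.sign_eq_one_of_pos (by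
        have : ((C * m : ℕ) : ℤ) < ((A * u : ℕ) : ℤ) := by exact_mod_cast h
        push_cast at this
        linarith)]
      ring
    · exfalso
      have h2 : m ∣ A * u := ⟨C, by rw [← h, mul_comm]⟩
      have h3 : m ∣ u := hc.symm.dvd_of_dvd_mul_left h2
      have h4 : u = 0 := Nat.eq_zero_of_dvd_of_lt h3 hu
      subst h4
      rw [Nat.coprime_zero_left] at hcu
      omega
    · rw [if_neg (by omega), Int.sign_eq_neg_one_of_neg (by
        have : ((A * u : ℕ) : ℤ) < ((C * m : ℕ) : ℤ) := by exact_mod_cast h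
        push_cast at this
        linarith)]
      ring
  rw [Finset.sum_congr rfl h1, Finset.sum_sub_distrib, hs, sub_zero, ← Finset.mul_sum,
    Finset.sum_filter]

theorem line1 (hC : S_CNF) {A m : ℕ} (h : Pr A m) (hA : 1 < A) :
    3 * ∑ u ∈ un m, jacobiSym u m * bd A u m = rr (A * m : ℕ) := by
  rw [← cnfg hC h hA]
  obtain ⟨⟨hsqA, hA4, hA17⟩, hm, hc⟩ := h
  have hm4 := hm.2.1
  have hs := sum_sqf hA (Nat.odd_iff.2 (by omega)) hsqA
  unfold CS
  rw [← un_sum fun t => ∑ k ∈ (range A).filter (fun k => k * m < A * t), jacobiSym (k : ℤ) A,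
    Finset.mul_sum, Finset.mul_sum]
  refine Finset.sum_congr rfl fun u hu => ?_
  unfold un at hu
  rw [Finset.mem_filter, Finset.mem_range] at hu
  rw [bd_inner hA (by omega) hc hu.1 hu.2 hs]
  ring

theorem line2 (hC : S_CNF) {A m : ℕ} (h : Pr A m) (hA : 1 < A) :
    3 * ∑ u ∈ un A, jacobiSym u A * bd m u A = - rr (A * m : ℕ) := by
  rw [← line1 hC h hA]
  rw [un_sum fun u => bd m u A, un_sum fun u => bd A u m, ← mul_neg]
  congr 1
  have e : ∀ (A m : ℕ), ∑ u ∈ range m, jacobiSym (u : ℤ) m * bd A u m =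
      ∑ u ∈ range m, ∑ C ∈ range A, jacobiSym (u : ℤ) m * (jacobiSym (C : ℤ) A *
        Int.sign ((A : ℤ) * u - C * m)) := by
    intro A m
    refine Finset.sum_congr rfl fun u hu => ?_
    have hu' := Finset.mem_range.1 hu
    unfold bd
    rw [Int.emod_eq_of_lt (by positivity) (by exact_mod_cast hu'), Finset.mul_sum]
  rw [e, e, Finset.sum_comm, ← Finset.sum_neg_distrib]
  refine Finset.sum_congr rfl fun u _ => ?_
  rw [← Finset.sum_neg_distrib]
  refine Finset.sum_congr rfl fun C _ => ?_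
  have : Int.sign ((m : ℤ) * C - u * A) = - Int.sign ((A : ℤ) * u - C * m) := by
    rw [← Int.sign_neg]
    congr 1
    ring
  rw [this]
  ring

/-- doubling -/
lemma val_double {n : ℕ} [NeZero n] (x : ZMod n) :
    (((x + x).val : ℕ) : ℤ) = 2 * (x.val : ℤ) - (if 2 * x.val < n then (0 : ℤ) else (n : ℤ)) := by
  have h3 := ZMod.val_lt x
  rw [ZMod.val_add]
  split_ifs with h4
  · rw [Nat.mod_eq_of_lt (by omega)]
    push_cast
    ring
  · rw [Nat.mod_eq_sub_mod (by omega), Nat.mod_eq_of_lt (by omega), Nat.cast_sub (by omega)]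
    push_cast
    ring

lemma jac_double {n : ℕ} [NeZero n] (x : ZMod n) :
    jacobiSym (((x + x).val : ℕ) : ℤ) n = jacobiSym 2 n * jacobiSym x.val n := by
  rw [ZMod.val_add, ← jacobiSym.mul_left, jacobiSym.mod_left, jacobiSym.mod_left (2 * _)]
  push_cast
  rw [Int.emod_emod_of_dvd _ (dvd_refl _)]
  congr 2
  ring

lemma double_bij {n : ℕ} [NeZero n] (hodd : Odd n) :
    Function.Bijective fun x : ZMod n => x + x := by
  have h2 : IsUnit (2 : ZMod n) := by
    have := (ZMod.isUnit_iff_coprime 2 n).2 (Nat.coprime_two_left.2 hodd)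
    exact_mod_cast this
  have : (fun x : ZMod n => x + x) = fun x => 2 * x := by
    ext x
    rw [two_mul]
  rw [this]
  exact Finite.injective_iff_bijective.1 (h2.mul_right_injective)

/-- reindexing by doubling -/
lemma sum_double {n : ℕ} [NeZero n] (hodd : Odd n) (g : ℤ → ℤ) :
    ∑ x : ZMod n, jacobiSym x.val n * g ((x + x).val : ℕ) =
      jacobiSym 2 n * ∑ k ∈ range n, jacobiSym (k : ℤ) n * g k := by
  rw [sum_zmod fun k => jacobiSym (k : ℤ) n * g k,
    ← (double_bij hodd).sum_comp (g := fun x : ZMod n => jacobiSym ((x.val : ℕ) : ℤ) n * g x.val)]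
  simp only [jac_double]
  have h5 : jacobiSym 2 n * jacobiSym 2 n = 1 := by
    have := jacobiSym.sq_one (a := 2) (b := n) (by
      have := Nat.coprime_two_left.2 hodd
      exact_mod_cast this)
    rw [sq] at this
    exact this
  rw [Finset.mul_sum]
  refine Finset.sum_congr rfl fun x _ => ?_
  linear_combination (-(jacobiSym x.val n * g ((x + x).val : ℕ))) * h5

/-- the half sums of an even character -/
lemma half_even {A : ℕ} [NeZero A] (hA : 1 < A) (hA4 : A % 4 = 1) :
    ∑ x : ZMod A, jacobiSym x.val A * (if 2 * x.val < A then 1 else -1) = 0 := by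
  have hA1 : jacobiSym (-1) A = 1 := by
    rw [jacobiSym.at_neg_one (Nat.odd_iff.2 (by omega)), ZMod.χ₄_nat_one_mod_four hA4]
  set G : ZMod A → ℤ := fun x => jacobiSym x.val A * (if 2 * x.val < A then (1 : ℤ) else -1) with hG
  have h1 : ∑ x : ZMod A, G (-x) = ∑ x : ZMod A, G x := Fintype.sum_equiv (Equiv.neg (ZMod A)) _ _
    fun x => rfl
  have h2 : ∀ x : ZMod A, G (-x) = -G x := by
    intro x
    simp only [hG]
    by_cases h0 : x = 0
    · subst h0
      rw [neg_zero, ZMod.val_zero, jac_zero hA]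
      ring
    · have h3 : (-x).val = A - x.val := by
        rw [ZMod.neg_val, if_neg h0]
      have h4 := ZMod.val_lt x
      have h5 : 0 < x.val := Nat.pos_of_ne_zero fun h => h0 ((ZMod.val_eq_zero x).1 h)
      have h6 : jacobiSym (((A - x.val : ℕ)) : ℤ) A = jacobiSym x.val A := by
        have e : (((A - x.val : ℕ)) : ℤ) = (-1) * (x.val : ℤ) + (A : ℤ) := by
          rw [Nat.cast_sub h4.le]
          ring
        rw [e, jacobiSym.mod_left, Int.add_emod_right, ← jacobiSym.mod_left, jacobiSym.mul_left,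
          hA1, one_mul]
      rw [h3, h6]
      have h7 : 2 * x.val ≠ A := by omega
      split_ifs <;> first | (exfalso; omega) | ring
  change ∑ x : ZMod A, G x = 0
  simp only [h2] at h1
  rw [Finset.sum_neg_distrib] at h1
  linarith

/-- the distribution relation at two -/
theorem dist_two {A m u : ℕ} (hA : 1 < A) (hA4 : A % 4 = 1) (hu : u < m) :
    bd A u (2 * m) + bd A (u + m) (2 * m) = jacobiSym 2 A * bd A u m := by
  have : NeZero A := ⟨by omega⟩
  have hodd : Odd A := Nat.odd_iff.2 (by omega)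
  have e0 : ((u : ℤ) % (m : ℤ)) = u := Int.emod_eq_of_lt (by positivity) (by exact_mod_cast hu)
  have e1 : ((u : ℤ) % (2 * m : ℤ)) = u := Int.emod_eq_of_lt (by positivity) (by
    have : (u : ℤ) < m := by exact_mod_cast hu
    linarith)
  have e2 : (((u : ℤ) + m) % (2 * m : ℤ)) = u + m := Int.emod_eq_of_lt (by positivity) (by
    have : (u : ℤ) < m := by exact_mod_cast hu
    linarith)
  unfold bd
  rw [e0, e1, e2, ← sum_double hodd (fun C => Int.sign ((A : ℤ) * u - C * m)),
    ← Finset.sum_add_distrib]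
  have h3 : ∀ C : ℕ, jacobiSym (C : ℤ) A * Int.sign ((A : ℤ) * u - (C : ℤ) * (2 * m)) +
      jacobiSym (C : ℤ) A * Int.sign ((A : ℤ) * (u + m) - (C : ℤ) * (2 * m)) =
      (fun C : ℕ => jacobiSym (C : ℤ) A * (Int.sign ((A : ℤ) * u - (C : ℤ) * (2 * m)) +
        Int.sign ((A : ℤ) * (u + m) - (C : ℤ) * (2 * m)))) C := fun C => by
    simp only
    ring
  rw [Finset.sum_congr rfl fun C _ => h3 C, sum_zmod]
  have h4 := half_even hA hA4
  rw [← sub_eq_zero, ← Finset.sum_sub_distrib, ← h4]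
  refine Finset.sum_congr rfl fun x _ => ?_
  have h5 := ZMod.val_lt x
  rw [val_double]
  have hu' : (u : ℤ) < m := by exact_mod_cast hu
  have hu0 : (0 : ℤ) ≤ u := by positivity
  have hx' : (x.val : ℤ) < A := by exact_mod_cast h5
  have hx0 : (0 : ℤ) ≤ x.val := by positivity
  have hA0 : (0 : ℤ) < A := by exact_mod_cast (by omega : 0 < A)
  split_ifs with h6
  · have h7 : (2 * (x.val : ℤ)) < A := by exact_mod_cast h6
    have h8 : Int.sign ((A : ℤ) * (u + m) - (x.val : ℤ) * (2 * m)) = 1 :=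
      Int.sign_eq_one_of_pos (by nlinarith)
    rw [h8, sub_zero]
    have h9 : (A : ℤ) * u - (x.val : ℤ) * (2 * m) = (A : ℤ) * u - 2 * (x.val : ℤ) * m := by ring
    rw [h9]
    ring
  · have h7 : (A : ℤ) < (2 * (x.val : ℤ)) := by
      have : A < 2 * x.val := by
        have : 2 * x.val ≠ A := by omega
        omega
      exact_mod_cast this
    have h8 : Int.sign ((A : ℤ) * u - (x.val : ℤ) * (2 * m)) = -1 :=
      Int.sign_eq_neg_one_of_neg (by nlinarith)
    rw [h8]
    have h9 : (A : ℤ) * (u + m) - (x.val : ℤ) * (2 * m) =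
      (A : ℤ) * u - (2 * (x.val : ℤ) - A) * m := by ring
    rw [h9]
    ring

/-- the sum over the doubled cusps -/
theorem dbl {A m : ℕ} (hm : 1 < m) (hmo : Odd m) :
    ∑ u ∈ un m, jacobiSym u m * bd A (2 * u) m =
      jacobiSym 2 m * ∑ u ∈ un m, jacobiSym u m * bd A u m := by
  have : NeZero m := ⟨by omega⟩
  rw [un_sum fun u => bd A (2 * u) m, un_sum fun u => bd A u m, ← sum_double hmo (fun u => bd A u m),
    sum_zmod fun u => jacobiSym (u : ℤ) m * bd A (2 * u) m]
  refine Finset.sum_congr rfl fun x _ => ?_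
  congr 1
  rw [val_double]
  unfold bd
  have : (2 * (x.val : ℤ) - (if 2 * x.val < m then 0 else (m : ℤ))) % m = (2 * (x.val : ℤ)) % m := by
    split_ifs
    · rw [sub_zero]
    · rw [Int.sub_emod_right]
  rw [this]

/-- **CNFG**: the class number formula for the boundary terms -/
theorem t_CNFG (hC : S_CNF) : S_CNFG := by
  intro A m h hA
  have h1 := line1 hC h hA
  refine ⟨h1, line2 hC h hA, ?_⟩
  obtain ⟨⟨hsqA, hA4, hA17⟩, hm, hc⟩ := h
  have hm4 := hm.2.1
  have hmo : Odd m := Nat.odd_iff.2 (by omega)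
  have h2 : ∑ u ∈ un m, jacobiSym u m * (bd A (2 * u) m + bd A u (2 * m) + bd A (u + m) (2 * m)) =
      ∑ u ∈ un m, jacobiSym u m * bd A (2 * u) m +
      ∑ u ∈ un m, jacobiSym u m * (jacobiSym 2 A * bd A u m) := by
    rw [← Finset.sum_add_distrib]
    refine Finset.sum_congr rfl fun u hu => ?_
    unfold un at hu
    rw [Finset.mem_filter, Finset.mem_range] at hu
    rw [← dist_two hA hA4 hu.1]
    ring
  have h3 : ∑ u ∈ un m, jacobiSym u m * (jacobiSym 2 A * bd A u m) =
      jacobiSym 2 A * ∑ u ∈ un m, jacobiSym u m * bd A u m := by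
    rw [Finset.mul_sum]
    refine Finset.sum_congr rfl fun u _ => ?_
    ring
  rw [h2, h3, dbl (by omega) hmo, ep2_eq hm4, ← h1]
  ring

end Pool.Agent.N809.PG
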