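import Pool.Agent.N809.PG.Gen
import Pool.Agent.N974.Gen.ChP
import Pool.Agent.N969.P17G.Defs2

/-!
The class number formula for the boundary terms, even products (P17G, CNFGE).
-/

set_option autoImplicit false

open Finset

namespace Pool.Agent.N809.PG

open Pool.Agent.N972.P17
open Pool.Agent.N969.P17G
open Pool.Agent.N969.P15 (ep2 un Ev c2 chE)
open Pool.Agent.N975.ChE (c2_mul c2_one c2_even c2_eq jac_sqfree)

/-- the shape of a positive discriminant -/
def ShP (A k : ℕ) : Prop := Squarefree k ∧ k % 2 = 1 ∧ A.primeFactors.erase 2 = k.primeFactors ∧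
  (A = k ∧ k % 4 = 1 ∨ A = 4 * k ∧ k % 4 = 3 ∨ A = 8 * k)

/-- the shape of a negative discriminant -/
def ShM (m k : ℕ) : Prop := Squarefree k ∧ k % 2 = 1 ∧ m.primeFactors.erase 2 = k.primeFactors ∧
  (m = k ∧ k % 4 = 3 ∨ m = 4 * k ∧ k % 4 = 1 ∨ m = 8 * k)

lemma erase_two {k : ℕ} (hk : k % 2 = 1) : k.primeFactors.erase 2 = k.primeFactors := by
  rw [Finset.erase_eq_of_notMem]
  intro h
  have := Nat.dvd_of_mem_primeFactors h
  omega

lemma shP_of {A : ℕ} (h : Cp A ∨ CpE A) : ∃ k, ShP A k := by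
  rcases h with ⟨h1, h2, -⟩ | ⟨M, hM, h1, h2, -⟩
  · exact ⟨A, h1, by omega, erase_two (by omega), Or.inl ⟨rfl, h2⟩⟩
  · obtain ⟨k, e1, e2, e3, e4⟩ := Pool.Agent.N974.Gen.ChP.ev_odd (n := A) ⟨M, hM, h1, by omega⟩
    exact ⟨k, e1, e2, e4, by tauto⟩

lemma shM_of {m : ℕ} (h : Cm m ∨ Cme m) : ∃ k, ShM m k := by
  rcases h with ⟨h1, h2, -⟩ | ⟨h1, -⟩
  · exact ⟨m, h1, by omega, erase_two (by omega), Or.inl ⟨rfl, h2⟩⟩
  · obtain ⟨k, e1, e2, e3, e4⟩ := Pool.Agent.N975.ChE.ev_odd h1
    exact ⟨k, e1, e2, e4, by tauto⟩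

lemma chP_eq {A k : ℕ} (h : ShP A k) (u : ℤ) :
    chP A u = (if 2 ∣ A then c2 (3 * A) u else 1) * jacobiSym u k := by
  unfold chP
  rw [h.2.2.1, jac_sqfree u h.1]

lemma chM_eq {m k : ℕ} (h : ShM m k) (u : ℤ) :
    chM m u = (if 2 ∣ m then c2 m u else 1) * jacobiSym u k := by
  unfold chM
  rw [h.2.2.1, jac_sqfree u h.1]

lemma c2_per {N d : ℕ} (hN : N % 16 = 4 ∧ 4 ∣ d ∨ N % 16 = 8 ∧ 8 ∣ d) {u v : ℤ}
    (h : (d : ℤ) ∣ u - v) : c2 N u = c2 N v := by
  unfold c2
  rcases hN with ⟨hn, hd⟩ | ⟨hn, hd⟩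
  · have h4 : (4 : ℤ) ∣ u - v := (show ((4 : ℕ) : ℤ) ∣ d by exact_mod_cast hd).trans h
    have e1 : u % 4 = v % 4 := by omega
    have e2 : u % 2 = v % 2 := by omega
    rw [e1, e2, if_pos hn, if_pos hn]
  · have h8 : (8 : ℤ) ∣ u - v := (show ((8 : ℕ) : ℤ) ∣ d by exact_mod_cast hd).trans h
    have e1 : u % 8 = v % 8 := by omega
    have e2 : u % 2 = v % 2 := by omega
    rw [e1, e2, if_neg (by omega : ¬ N % 16 = 4), if_neg (by omega : ¬ N % 16 = 4)]

lemma c2_half {N d : ℕ} (hN : N % 16 = 4 ∧ d % 4 = 2 ∨ N % 16 = 8 ∧ d % 8 = 4) (u : ℤ) :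
    c2 N (d + u) = -c2 N u := by
  unfold c2
  rcases hN with ⟨hn, hd⟩ | ⟨hn, hd⟩
  · have hd' : (d : ℤ) % 4 = 2 := by omega
    split_ifs <;> first | rfl | (exfalso; omega)
  · have hd' : (d : ℤ) % 8 = 4 := by omega
    split_ifs <;> first | rfl | (exfalso; omega)

lemma jac_per {k d : ℕ} (hk : k ∣ d) {u v : ℤ} (h : (d : ℤ) ∣ u - v) :
    jacobiSym u k = jacobiSym v k := by
  rw [jacobiSym.mod_left, jacobiSym.mod_left v]
  congr 1
  have : (k : ℤ) ∣ u - v := (show (k : ℤ) ∣ d by exact_mod_cast hk).trans h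
  exact Int.emod_eq_emod_iff_emod_sub_eq_zero.2 (Int.emod_eq_zero_of_dvd this)

lemma jac_zero_of {u k : ℕ} (hk : 0 < k) (h : ¬ Nat.Coprime u k) : jacobiSym (u : ℤ) k = 0 := by
  rw [jacobiSym.eq_zero_iff]
  refine ⟨by omega, ?_⟩
  rw [Int.gcd_natCast_natCast]
  exact h

lemma chr_P {A k : ℕ} (h : ShP A k) : Chr A (chP A) := by
  have h1 := h.2.1
  have h2 := h.2.2.2
  have hk0 : 0 < k := by omega
  have hkd : k ∣ A := by
    rcases h2 with ⟨e, -⟩ | ⟨e, -⟩ | e
    · exact ⟨1, by omega⟩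
    · exact ⟨4, by omega⟩
    · exact ⟨8, by omega⟩
  refine ⟨fun u v huv => ?_, fun u v => ?_, fun u hu => ?_, ?_⟩
  · rw [chP_eq h, chP_eq h, jac_per hkd huv]
    congr 1
    split_ifs with h3
    · refine c2_per (d := A) ?_ huv
      rcases h2 with ⟨e, h4⟩ | ⟨e, h4⟩ | e
      · omega
      · left; omega
      · right; omega
    · rfl
  · rw [chP_eq h, chP_eq h, chP_eq h, jacobiSym.mul_left]
    split_ifs
    · rw [c2_mul]
      ring
    · ring
  · rw [chP_eq h]
    by_cases h3 : Nat.Coprime u k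
    · -- then both are even
      have h4 : 2 ∣ A ∧ 2 ∣ u := by
        by_contra h5
        apply hu
        rcases h2 with ⟨e, -⟩ | ⟨e, -⟩ | e
        · rw [e]; exact h3
        · have h6 : ¬ 2 ∣ u := fun h6 => h5 ⟨by omega, h6⟩
          have h7 : Nat.Coprime u 2 := (Nat.coprime_comm.1 ((Nat.Prime.coprime_iff_not_dvd
            Nat.prime_two).2 h6))
          rw [e, show 4 = 2 * 2 by norm_num]
          exact Nat.Coprime.mul_right (Nat.Coprime.mul_right h7 h7) h3
        · have h6 : ¬ 2 ∣ u := fun h6 => h5 ⟨by omega, h6⟩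
          have h7 : Nat.Coprime u 2 := (Nat.coprime_comm.1 ((Nat.Prime.coprime_iff_not_dvd
            Nat.prime_two).2 h6))
          rw [e, show 8 = 2 * 2 * 2 by norm_num]
          exact Nat.Coprime.mul_right (Nat.Coprime.mul_right (Nat.Coprime.mul_right h7 h7) h7) h3
      rw [if_pos h4.1, c2_even _ (by omega), zero_mul]
    · rw [jac_zero_of hk0 h3, mul_zero]
  · rw [chP_eq h, c2_one, jacobiSym.one_left]
    split_ifs <;> norm_num

lemma chr_M {m k : ℕ} (h : ShM m k) : Chr m (chM m) := by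
  have h1 := h.2.1
  have h2 := h.2.2.2
  have hk0 : 0 < k := by omega
  have hkd : k ∣ m := by
    rcases h2 with ⟨e, -⟩ | ⟨e, -⟩ | e
    · exact ⟨1, by omega⟩
    · exact ⟨4, by omega⟩
    · exact ⟨8, by omega⟩
  refine ⟨fun u v huv => ?_, fun u v => ?_, fun u hu => ?_, ?_⟩
  · rw [chM_eq h, chM_eq h, jac_per hkd huv]
    congr 1
    split_ifs with h3
    · refine c2_per (d := m) ?_ huv
      rcases h2 with ⟨e, h4⟩ | ⟨e, h4⟩ | e
      · omega
      · left; omega
      · right; omega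
    · rfl
  · rw [chM_eq h, chM_eq h, chM_eq h, jacobiSym.mul_left]
    split_ifs
    · rw [c2_mul]
      ring
    · ring
  · rw [chM_eq h]
    by_cases h3 : Nat.Coprime u k
    · have h4 : 2 ∣ m ∧ 2 ∣ u := by
        by_contra h5
        apply hu
        rcases h2 with ⟨e, -⟩ | ⟨e, -⟩ | e
        · rw [e]; exact h3
        · have h6 : ¬ 2 ∣ u := fun h6 => h5 ⟨by omega, h6⟩
          have h7 : Nat.Coprime u 2 := (Nat.coprime_comm.1 ((Nat.Prime.coprime_iff_not_dvd
            Nat.prime_two).2 h6))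
          rw [e, show 4 = 2 * 2 by norm_num]
          exact Nat.Coprime.mul_right (Nat.Coprime.mul_right h7 h7) h3
        · have h6 : ¬ 2 ∣ u := fun h6 => h5 ⟨by omega, h6⟩
          have h7 : Nat.Coprime u 2 := (Nat.coprime_comm.1 ((Nat.Prime.coprime_iff_not_dvd
            Nat.prime_two).2 h6))
          rw [e, show 8 = 2 * 2 * 2 by norm_num]
          exact Nat.Coprime.mul_right (Nat.Coprime.mul_right (Nat.Coprime.mul_right h7 h7) h7) h3
      rw [if_pos h4.1, c2_even _ (by omega), zero_mul]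
    · rw [jac_zero_of hk0 h3, mul_zero]
  · rw [chM_eq h, c2_one, jacobiSym.one_left]
    split_ifs <;> norm_num

lemma hp_P {A k : ℕ} (h : ShP A k) : HP A (chP A) := by
  have h1 := h.2.1
  rcases h.2.2.2 with ⟨e, -⟩ | ⟨e, h4⟩ | e
  · exact Or.inl (Nat.odd_iff.2 (by omega))
  · refine Or.inr ⟨2 * k, by omega, by omega, fun u => ?_⟩
    rw [chP_eq h, chP_eq h, if_pos (by omega), if_pos (by omega), c2_half (by left; omega),
      jac_per (k := k) (d := 2 * k) ⟨2, by ring⟩ (u := ((2 * k : ℕ) : ℤ) + u) (v := u)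
        ⟨1, by ring⟩]
    ring
  · refine Or.inr ⟨4 * k, by omega, by omega, fun u => ?_⟩
    rw [chP_eq h, chP_eq h, if_pos (by omega), if_pos (by omega), c2_half (by right; omega),
      jac_per (k := k) (d := 4 * k) ⟨4, by ring⟩ (u := ((4 * k : ℕ) : ℤ) + u) (v := u)
        ⟨1, by ring⟩]
    ring

lemma hp_M {m k : ℕ} (h : ShM m k) : HP m (chM m) := by
  have h1 := h.2.1
  rcases h.2.2.2 with ⟨e, -⟩ | ⟨e, h4⟩ | e
  · exact Or.inl (Nat.odd_iff.2 (by omega))
  · refine Or.inr ⟨2 * k, by omega, by omega, fun u => ?_⟩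
    rw [chM_eq h, chM_eq h, if_pos (by omega), if_pos (by omega), c2_half (by left; omega),
      jac_per (k := k) (d := 2 * k) ⟨2, by ring⟩ (u := ((2 * k : ℕ) : ℤ) + u) (v := u)
        ⟨1, by ring⟩]
    ring
  · refine Or.inr ⟨4 * k, by omega, by omega, fun u => ?_⟩
    rw [chM_eq h, chM_eq h, if_pos (by omega), if_pos (by omega), c2_half (by right; omega),
      jac_per (k := k) (d := 4 * k) ⟨4, by ring⟩ (u := ((4 * k : ℕ) : ℤ) + u) (v := u)
        ⟨1, by ring⟩]
    ring

lemma jac_neg {k : ℕ} (hk : k % 2 = 1) : jacobiSym (-1) k = if k % 4 = 1 then 1 else -1 := by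
  rw [jacobiSym.at_neg_one (Nat.odd_iff.2 hk)]
  split_ifs with h
  · exact ZMod.χ₄_nat_one_mod_four h
  · exact ZMod.χ₄_nat_three_mod_four (by omega)

lemma jac_two {k : ℕ} (hk : k % 2 = 1) :
    jacobiSym 2 k = if k % 8 = 1 ∨ k % 8 = 7 then 1 else -1 := by
  rw [jacobiSym.at_two (Nat.odd_iff.2 hk), ZMod.χ₈_nat_eq_if_mod_eight, if_neg (by omega)]

lemma neg_P {A k : ℕ} (h : ShP A k) : chP A (-1) = 1 := by
  have h1 := h.2.1
  rw [chP_eq h, jac_neg h1]
  unfold c2
  rcases h.2.2.2 with ⟨e, h4⟩ | ⟨e, h4⟩ | e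
  · rw [if_neg (by omega), if_pos h4]
    norm_num
  · rw [if_pos (by omega : 2 ∣ A), if_neg (by norm_num), if_pos (by omega), if_neg (by norm_num),
      if_neg (by omega)]
    norm_num
  · rw [if_pos (by omega : 2 ∣ A), if_neg (by norm_num), if_neg (by omega)]
    norm_num
    split_ifs <;> first | rfl | (exfalso; omega)

lemma neg_M {m k : ℕ} (h : ShM m k) : chM m (-1) = -1 := by
  have h1 := h.2.1
  rw [chM_eq h, jac_neg h1]
  unfold c2
  rcases h.2.2.2 with ⟨e, h4⟩ | ⟨e, h4⟩ | e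
  · rw [if_neg (by omega), if_neg (by omega)]
    norm_num
  · rw [if_pos (by omega : 2 ∣ m), if_neg (by norm_num), if_pos (by omega), if_neg (by norm_num),
      if_pos (by omega)]
    norm_num
  · rw [if_pos (by omega : 2 ∣ m), if_neg (by norm_num), if_neg (by omega)]
    norm_num
    split_ifs <;> first | rfl | (exfalso; omega)

/-- reciprocity -/
lemma recip {A m k l : ℕ} (hP : ShP A k) (hM : ShM m l) (hc : Nat.Coprime A m) :
    chP A m * chM m A = 1 := by
  have hk1 := hP.2.1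
  have hl1 := hM.2.1
  have hko : Odd k := Nat.odd_iff.2 hk1
  have hlo : Odd l := Nat.odd_iff.2 hl1
  have hkl : Nat.Coprime k l := by
    have h1 : k ∣ A := by
      rcases hP.2.2.2 with ⟨e, -⟩ | ⟨e, -⟩ | e
      · exact ⟨1, by omega⟩
      · exact ⟨4, by omega⟩
      · exact ⟨8, by omega⟩
    have h2 : l ∣ m := by
      rcases hM.2.2.2 with ⟨e, -⟩ | ⟨e, -⟩ | e
      · exact ⟨1, by omega⟩
      · exact ⟨4, by omega⟩
      · exact ⟨8, by omega⟩
    exact (hc.coprime_dvd_left h1).coprime_dvd_right h2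
  have hsq : jacobiSym (l : ℤ) k * jacobiSym (l : ℤ) k = 1 := by
    rw [← sq]
    exact jacobiSym.sq_one (by rw [Int.gcd_natCast_natCast]; exact hkl.symm)
  have f1 : ∀ j : ℕ, Odd j → jacobiSym 4 j = 1 := by
    intro j hj
    have : (4 : ℤ) = 2 * 2 := by norm_num
    rw [this, jacobiSym.mul_left, ← sq]
    refine jacobiSym.sq_one ?_
    have := Nat.coprime_two_left.2 hj
    exact_mod_cast this
  have f2 : ∀ j : ℕ, Odd j → jacobiSym 8 j = jacobiSym 2 j := by
    intro j hj
    have : (8 : ℤ) = 4 * 2 := by norm_num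
    rw [this, jacobiSym.mul_left, f1 j hj, one_mul]
  -- reciprocity for the odd parts
  have r1 : k % 4 = 1 ∨ l % 4 = 1 → jacobiSym (k : ℤ) l = jacobiSym (l : ℤ) k := by
    rintro (h | h)
    · exact jacobiSym.quadratic_reciprocity_one_mod_four h hlo
    · exact (jacobiSym.quadratic_reciprocity_one_mod_four h hko).symm
  have r3 : k % 4 = 3 → l % 4 = 3 → jacobiSym (k : ℤ) l = -jacobiSym (l : ℤ) k := by
    intro h h'
    exact jacobiSym.quadratic_reciprocity_three_mod_four h h'
  rw [chP_eq hP, chM_eq hM]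
  rcases hP.2.2.2 with ⟨eA, hk⟩ | ⟨eA, hk⟩ | eA
  · -- `A` odd
    rw [if_neg (by omega : ¬ 2 ∣ A)]
    rcases hM.2.2.2 with ⟨em, hl⟩ | ⟨em, hl⟩ | em
    · rw [if_neg (by omega : ¬ 2 ∣ m), em, eA, r1 (Or.inl hk)]
      linear_combination hsq
    · rw [if_pos (by omega : 2 ∣ m)]
      have hc2 : c2 m A = 1 := by
        unfold c2
        rw [if_neg (by omega), if_pos (by omega), if_pos (by omega)]
      have e1 : jacobiSym (m : ℤ) k = jacobiSym l k := by
        rw [em]
        push_cast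
        rw [jacobiSym.mul_left, f1 k hko, one_mul]
      rw [hc2, e1, eA, r1 (Or.inl hk)]
      linear_combination hsq
    · rw [if_pos (by omega : 2 ∣ m)]
      have hc2 : c2 m A = jacobiSym 2 k := by
        rw [jac_two hk1]
        unfold c2
        rw [if_neg (by omega), if_neg (by omega)]
        split_ifs <;> first | rfl | (exfalso; omega)
      have e1 : jacobiSym (m : ℤ) k = jacobiSym 2 k * jacobiSym l k := by
        rw [em]
        push_cast
        rw [jacobiSym.mul_left, f2 k hko]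
      have h2 : jacobiSym 2 k * jacobiSym 2 k = 1 := by
        rw [jac_two hk1]
        split_ifs <;> norm_num
      rw [hc2, e1, eA, r1 (Or.inl hk)]
      linear_combination (jacobiSym 2 k * jacobiSym 2 k) * hsq + h2
  · -- `A = 4 k`
    have hm : m = l ∧ l % 4 = 3 := by
      rcases hM.2.2.2 with h | ⟨em, -⟩ | em
      · exact h
      · exfalso
        have := Nat.dvd_gcd (show 2 ∣ A by omega) (show 2 ∣ m by omega)
        rw [hc] at this
        omega
      · exfalso
        have := Nat.dvd_gcd (show 2 ∣ A by omega) (show 2 ∣ m by omega)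
        rw [hc] at this
        omega
    obtain ⟨em, hl⟩ := hm
    rw [if_pos (by omega : 2 ∣ A), if_neg (by omega : ¬ 2 ∣ m)]
    have hc2 : c2 (3 * A) m = -1 := by
      unfold c2
      rw [if_neg (by omega), if_pos (by omega), if_neg (by omega)]
    have e1 : jacobiSym (A : ℤ) l = jacobiSym k l := by
      rw [eA]
      push_cast
      rw [jacobiSym.mul_left, f1 l hlo, one_mul]
    rw [hc2, e1, em, r3 hk hl]
    linear_combination hsq
  · -- `A = 8 k`
    have hm : m = l ∧ l % 4 = 3 := by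
      rcases hM.2.2.2 with h | ⟨em, -⟩ | em
      · exact h
      · exfalso
        have := Nat.dvd_gcd (show 2 ∣ A by omega) (show 2 ∣ m by omega)
        rw [hc] at this
        omega
      · exfalso
        have := Nat.dvd_gcd (show 2 ∣ A by omega) (show 2 ∣ m by omega)
        rw [hc] at this
        omega
    obtain ⟨em, hl⟩ := hm
    rw [if_pos (by omega : 2 ∣ A), if_neg (by omega : ¬ 2 ∣ m)]
    have e1 : jacobiSym (A : ℤ) l = jacobiSym 2 l * jacobiSym k l := by
      rw [eA]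
      push_cast
      rw [jacobiSym.mul_left, f2 l hlo]
    have h2 : jacobiSym 2 l * jacobiSym 2 l = 1 := by
      rw [jac_two hl1]
      split_ifs <;> norm_num
    rcases (by omega : k % 4 = 1 ∨ k % 4 = 3) with hk | hk
    · have hc2 : c2 (3 * A) m = jacobiSym 2 l := by
        rw [jac_two hl1]
        unfold c2
        rw [if_neg (by omega), if_neg (by omega), if_neg (by omega)]
        split_ifs <;> first | rfl | (exfalso; omega)
      rw [hc2, e1, em, r1 (Or.inl hk)]
      linear_combination (jacobiSym 2 l * jacobiSym 2 l) * hsq + h2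
    · have hc2 : c2 (3 * A) m = -jacobiSym 2 l := by
        rw [jac_two hl1]
        unfold c2
        rw [if_neg (by omega), if_neg (by omega), if_pos (by omega)]
        split_ifs <;> first | rfl | (exfalso; omega)
      rw [hc2, e1, em, r3 hk hl]
      linear_combination (jacobiSym 2 l * jacobiSym 2 l) * hsq + h2

/-- the product of the characters -/
lemma prod_char {A m k l : ℕ} (hP : ShP A k) (hM : ShM m l) (hc : Nat.Coprime A m)
    (he : 2 ∣ A ∨ 2 ∣ m) (u : ℤ) : chE (A * m) u = chP A u * chM m u := by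
  have hk1 := hP.2.1
  have hl1 := hM.2.1
  have hA0 : A ≠ 0 := by rcases hP.2.2.2 with ⟨e, -⟩ | ⟨e, -⟩ | e <;> omega
  have hm0 : m ≠ 0 := by rcases hM.2.2.2 with ⟨e, -⟩ | ⟨e, -⟩ | e <;> omega
  unfold chE chP chM
  have h1 : (A * m).primeFactors.erase 2 = A.primeFactors.erase 2 ∪ m.primeFactors.erase 2 := by
    rw [Nat.primeFactors_mul hA0 hm0, Finset.erase_union_distrib]
  have h2 : Disjoint (A.primeFactors.erase 2) (m.primeFactors.erase 2) :=
    Finset.disjoint_of_subset_left (Finset.erase_subset _ _)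
      (Finset.disjoint_of_subset_right (Finset.erase_subset _ _) hc.disjoint_primeFactors)
  rw [h1, Finset.prod_union h2]
  have h3 : c2 (A * m) u = (if 2 ∣ A then c2 (3 * A) u else 1) * (if 2 ∣ m then c2 m u else 1) := by
    rcases hP.2.2.2 with ⟨eA, hk⟩ | hA
    · -- `A` odd
      have hm : 2 ∣ m := by omega
      rw [if_neg (by omega : ¬ 2 ∣ A), if_pos hm, one_mul]
      have hA4 : A % 4 = 1 := by omega
      rcases hM.2.2.2 with ⟨em, hl⟩ | ⟨em, hl⟩ | em
      · omega
      · have e1 : (A * m) % 16 = 4 := by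
          have : A * m = 4 * (A * l) := by rw [em]; ring
          have h5 : (A * l) % 4 = 1 := by rw [Nat.mul_mod, hA4, hl]
          omega
        unfold c2
        rw [if_pos (by omega : (A * m) % 16 = 4), if_pos (by omega : m % 16 = 4)]
      · have e0 : A * m = 8 * (A * l) := by rw [em]; ring
        have h5 : (A * l) % 4 = l % 4 := by rw [Nat.mul_mod, hA4, one_mul, Nat.mod_mod]
        unfold c2
        rw [if_neg (by omega : ¬ (A * m) % 16 = 4), if_neg (by omega : ¬ m % 16 = 4)]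
        have h6 : (A * m) % 32 = 8 ↔ m % 32 = 8 := by omega
        simp only [h6]
    · -- `A` even
      have h2A : 2 ∣ A := by rcases hA with ⟨e, -⟩ | e <;> omega
      have hm : m % 4 = 3 := by
        rcases hM.2.2.2 with ⟨em, hl⟩ | ⟨em, -⟩ | em
        · omega
        · exfalso
          have := Nat.dvd_gcd h2A (show 2 ∣ m by omega)
          rw [hc] at this
          omega
        · exfalso
          have := Nat.dvd_gcd h2A (show 2 ∣ m by omega)
          rw [hc] at this
          omega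
      rw [if_pos h2A, if_neg (by omega : ¬ 2 ∣ m), mul_one]
      rcases hA with ⟨eA, hk⟩ | eA
      · have e1 : (A * m) % 16 = 4 := by
          have : A * m = 4 * (k * m) := by rw [eA]; ring
          have h5 : (k * m) % 4 = 1 := by rw [Nat.mul_mod, hk, hm]
          omega
        unfold c2
        rw [if_pos (by omega : (A * m) % 16 = 4), if_pos (by omega : (3 * A) % 16 = 4)]
      · have e0 : A * m = 8 * (k * m) := by rw [eA]; ring
        have h5 : (k * m) % 4 = (3 * k) % 4 := by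
          rw [Nat.mul_mod, hm]
          omega
        unfold c2
        rw [if_neg (by omega : ¬ (A * m) % 16 = 4), if_neg (by omega : ¬ (3 * A) % 16 = 4)]
        have h6 : (A * m) % 32 = 8 ↔ (3 * A) % 32 = 8 := by omega
        simp only [h6]
  rw [h3]
  ring

lemma cme_mul {A m : ℕ} (h : PrE A m) : Cme (A * m) := by
  obtain ⟨h1, hc⟩ := h
  rcases h1 with ⟨⟨M, rfl, h1, h2, h3⟩, h4, h5, h6⟩ | ⟨⟨h1, h2, h3⟩, ⟨M, rfl, h4, h5⟩, h6⟩
  · refine ⟨⟨M * m, by ring, ?_, ?_⟩, ?_⟩
    · exact (Nat.squarefree_mul (hc.coprime_dvd_left ⟨4, by ring⟩)).2 ⟨h1, h4⟩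
    · rcases h2 with h2 | h2 <;> rw [Nat.mul_mod, h2, h5] <;> norm_num
    · push_cast
      have e4 : jacobiSym 4 17 = 1 := by norm_num [jacobiSym.mod_left]
      rw [jacobiSym.mul_left, jacobiSym.mul_left, e4, h3, h6]
      norm_num
  · refine ⟨⟨A * M, by ring, ?_, ?_⟩, ?_⟩
    · exact (Nat.squarefree_mul (hc.coprime_dvd_right ⟨4, by ring⟩)).2 ⟨h1, h4⟩
    · rcases h5 with h5 | h5 <;> rw [Nat.mul_mod, h2, h5] <;> norm_num
    · push_cast
      push_cast at h6
      rw [jacobiSym.mul_left, h3, h6]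
      norm_num

/-- **CNFGE**: the class number formula for the boundary terms, even products -/
theorem t_CNFGE (hC : S_CNFE) : S_CNFGE := by
  intro A m h hA
  obtain ⟨k, hP⟩ := shP_of (A := A) (by
    rcases h.1 with ⟨h1, -⟩ | ⟨h1, -⟩
    · exact Or.inr h1
    · exact Or.inl h1)
  obtain ⟨l, hM⟩ := shM_of (m := m) (by
    rcases h.1 with ⟨-, h1⟩ | ⟨-, h1⟩
    · exact Or.inl h1
    · exact Or.inr h1)
  have hn := cme_mul h
  have hc := h.2
  have hm : 1 < m := by
    have := hM.2.1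
    rcases hM.2.2.2 with ⟨e, h4⟩ | ⟨e, -⟩ | e <;> omega
  have he : 2 ∣ A ∨ 2 ∣ m := by
    rcases h.1 with ⟨⟨M, e, -⟩, -⟩ | ⟨-, ⟨M, e, -⟩, -⟩ <;> omega
  have hf := chr_P hP
  have hg := chr_M hM
  have hs : ∑ j ∈ range A, chP A j = 0 := by
    rcases hP.2.2.2 with ⟨e, h4⟩ | h4
    · have : ∀ j ∈ range A, chP A (j : ℤ) = jacobiSym j A := by
        intro j _
        rw [chP_eq hP, if_neg (by have := hP.2.1; omega), one_mul, e]
      rw [Finset.sum_congr rfl this]
      exact sum_sqf hA (Nat.odd_iff.2 (by have := hP.2.1; omega)) (by rw [e]; exact hP.1)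
    · rcases hp_P hP with h5 | ⟨j, h6, h7, h8⟩
      · rw [Nat.odd_iff] at h5
        omega
      · rw [h7] at h8 ⊢
        exact sum_half h8
  have h1 := dedG hA hm hc hf hg (prod_char hP hM hc he) (neg_P hP) (neg_M hM) hs (recip hP hM hc)
  -- the half period of the product
  have h2 : 6 * CG A m (chP A) (chM m) = rr (A * m : ℕ) := by
    have h3 : ∃ j : ℕ, 0 < j ∧ A * m = j + j ∧ ∀ u : ℤ, chE (A * m) (j + u) = -chE (A * m) u := by
      rcases he with h4 | h4
      · rcases hp_P hP with h5 | ⟨j, h6, h7, h8⟩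
        · rw [Nat.odd_iff] at h5
          omega
        · have hmo : m % 2 = 1 := by
            by_contra hm2
            have := Nat.dvd_gcd h4 (show 2 ∣ m by omega)
            rw [hc] at this
            omega
          refine ⟨j * m, Nat.mul_pos h6 (by omega), by rw [h7]; ring, fun u => ?_⟩
          rw [prod_char hP hM hc (Or.inl h4), prod_char hP hM hc (Or.inl h4)]
          have e1 : chP A (((j * m : ℕ) : ℤ) + u) = chP A (j + u) := by
            obtain ⟨q, hq⟩ : ∃ q : ℕ, m = 2 * q + 1 := ⟨m / 2, by omega⟩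
            refine hf.per _ _ ⟨(q : ℤ), ?_⟩
            rw [h7, hq]
            push_cast
            ring
          have e2 : chM m (((j * m : ℕ) : ℤ) + u) = chM m u := hg.per _ _ ⟨j, by push_cast; ring⟩
          rw [e1, e2, h8]
          ring
      · rcases hp_M hM with h5 | ⟨j, h6, h7, h8⟩
        · rw [Nat.odd_iff] at h5
          omega
        · have hAo : A % 2 = 1 := by
            by_contra hm2
            have := Nat.dvd_gcd (show 2 ∣ A by omega) h4
            rw [hc] at this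
            omega
          refine ⟨A * j, Nat.mul_pos (by omega) h6, by rw [h7]; ring, fun u => ?_⟩
          rw [prod_char hP hM hc (Or.inr h4), prod_char hP hM hc (Or.inr h4)]
          have e1 : chM m (((A * j : ℕ) : ℤ) + u) = chM m (j + u) := by
            obtain ⟨q, hq⟩ : ∃ q : ℕ, A = 2 * q + 1 := ⟨A / 2, by omega⟩
            refine hg.per _ _ ⟨(q : ℤ), ?_⟩
            rw [h7, hq]
            push_cast
            ring
          have e2 : chP A (((A * j : ℕ) : ℤ) + u) = chP A u := hf.per _ _ ⟨j, by push_cast; ring⟩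
          rw [e1, e2, h8]
          ring
    obtain ⟨j, hj0, hj, hh⟩ := h3
    have h4 := hC _ hn
    rw [hj] at hh h4
    have h5 := TG_half hh
    rw [← hj] at h5 h4
    rw [h1] at h5
    have hn0 : ((A * m : ℕ) : ℤ) ≠ 0 := by
      exact_mod_cast (by omega : A * m ≠ 0)
    apply mul_left_cancel₀ (mul_ne_zero (two_ne_zero (α := ℤ)) hn0)
    linear_combination (-6 : ℤ) * h5 + ((A * m : ℕ) : ℤ) * h4
  have h3 : ∑ u ∈ un m, chM m u * bdE A u m = 2 * CG A m (chP A) (chM m) :=
    lineA hm hc hg hs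
  have h4 : ∑ u ∈ un m, chM m u * (bdE A (2 * u) m + bdE A u (2 * m) + bdE A (u + m) (2 * m)) =
      (chP A 2 + chM m 2) * ∑ u ∈ un m, chM m u * bdE A u m :=
    lineB hA hm hf hg (neg_P hP) (hp_P hP) (hp_M hM)
  rw [h4, h3, ← h2]
  constructor
  · ring
  · ring

end Pool.Agent.N809.PG
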