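import Mathlib

/-!
A reciprocity for character sums over intervals: the Dedekind type sum of two quadratic characters.
-/

set_option autoImplicit false

open Finset

namespace Pool.Agent.N809.PG

/-- the sum of the multiples -/
def TT (n : ℕ) : ℤ := ∑ r ∈ range n, (r : ℤ) * jacobiSym r n

/-- the half sum -/
def HS (n : ℕ) : ℤ := ∑ u ∈ (range n).filter (fun u => 2 * u < n), jacobiSym u n

lemma jac_add (a n : ℕ) : jacobiSym ((a + n : ℕ) : ℤ) n = jacobiSym a n := by
  rw [jacobiSym.mod_left, jacobiSym.mod_left (a : ℤ)]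
  push_cast
  rw [Int.add_emod_right]

lemma jac_zero {n : ℕ} (h : 1 < n) : jacobiSym ((0 : ℕ) : ℤ) n = 0 := by
  push_cast
  exact jacobiSym.zero_left h

/-- an odd character has sum zero -/
lemma sum_odd {n : ℕ} (h1 : 1 < n) (h : jacobiSym (-1) n = -1) :
    ∑ r ∈ range n, jacobiSym (r : ℤ) n = 0 := by
  have h2 : ∑ r ∈ range n, jacobiSym (r : ℤ) n = -∑ r ∈ range n, jacobiSym (r : ℤ) n := by
    obtain ⟨k, rfl⟩ : ∃ k, n = k + 1 := ⟨n - 1, by omega⟩
    rw [Finset.sum_range_succ', jac_zero h1, add_zero]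
    conv_lhs => rw [← Finset.sum_range_reflect]
    rw [← Finset.sum_neg_distrib]
    refine Finset.sum_congr rfl fun j hj => ?_
    have hj' := Finset.mem_range.1 hj
    have e : (((k - 1 - j + 1 : ℕ)) : ℤ) = (-1) * ((j + 1 : ℕ) : ℤ) + ((k + 1 : ℕ) : ℤ) := by
      push_cast [show 1 + j ≤ k by omega, Nat.cast_sub (show 1 ≤ k by omega),
        Nat.cast_sub (show j ≤ k - 1 by omega)]
      ring
    rw [e, jacobiSym.mod_left, Int.add_emod_right, ← jacobiSym.mod_left, jacobiSym.mul_left, h]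
    ring
  linarith

/-- the relation at two -/
lemma two_TT {n : ℕ} (h1 : 1 < n) (hodd : Odd n) (h : jacobiSym (-1) n = -1) :
    (2 - jacobiSym 2 n) * TT n = -(n * HS n) := by
  have hn0 : NeZero n := ⟨by omega⟩
  have h2 : IsUnit (2 : ZMod n) := by
    have := (ZMod.isUnit_iff_coprime 2 n).2 (Nat.coprime_two_left.2 hodd)
    exact_mod_cast this
  -- the sum over the residues
  have hz : ∀ f : ℕ → ℤ, ∑ r ∈ range n, f r = ∑ x : ZMod n, f x.val := by
    intro f
    symm
    refine Finset.sum_nbij (fun x => x.val) (fun x _ => Finset.mem_range.2 (ZMod.val_lt x)) ?_ ?_ ?_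
    · intro x _ y _ hxy
      exact ZMod.val_injective n hxy
    · intro r hr
      refine ⟨(r : ZMod n), Finset.mem_coe.2 (Finset.mem_univ _), ?_⟩
      exact ZMod.val_cast_of_lt (Finset.mem_range.1 hr)
    · intro x _
      rfl
  have hb : Function.Bijective fun x : ZMod n => x + x := by
    have : (fun x : ZMod n => x + x) = fun x => 2 * x := by
      ext x
      rw [two_mul]
    rw [this]
    exact Finite.injective_iff_bijective.1 (h2.mul_right_injective)
  have e1 : TT n = jacobiSym 2 n * (2 * TT n + n * HS n) := by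
    have e2 : TT n = ∑ x : ZMod n, ((x.val : ℕ) : ℤ) * jacobiSym ((x.val : ℕ) : ℤ) n :=
      hz fun r => (r : ℤ) * jacobiSym r n
    rw [← hb.sum_comp (g := fun x : ZMod n => ((x.val : ℕ) : ℤ) * jacobiSym ((x.val : ℕ) : ℤ) n)]
      at e2
    have e3 : ∀ x : ZMod n, (((x + x).val : ℕ) : ℤ) * jacobiSym (((x + x).val : ℕ) : ℤ) n =
        jacobiSym 2 n * (2 * ((x.val : ℤ) * jacobiSym x.val n) -
          n * (if 2 * x.val < n then 0 else jacobiSym x.val n)) := by
      intro x
      have h3 := ZMod.val_lt x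
      have e4 : jacobiSym (((x + x).val : ℕ) : ℤ) n = jacobiSym 2 n * jacobiSym x.val n := by
        rw [ZMod.val_add, ← jacobiSym.mul_left, jacobiSym.mod_left, jacobiSym.mod_left (2 * _)]
        push_cast
        rw [Int.emod_emod_of_dvd _ (dvd_refl _)]
        congr 2
        ring
      rw [e4]
      have e5 : (((x + x).val : ℕ) : ℤ) = 2 * (x.val : ℤ) - (if 2 * x.val < n then 0 else n) := by
        rw [ZMod.val_add]
        split_ifs with h4
        · rw [Nat.mod_eq_of_lt (by omega)]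
          push_cast
          ring
        · rw [Nat.mod_eq_sub_mod (by omega), Nat.mod_eq_of_lt (by omega), Nat.cast_sub (by omega)]
          push_cast
          ring
      rw [e5]
      split_ifs <;> ring
    have e6 : ∑ x : ZMod n, (if 2 * x.val < n then 0 else jacobiSym x.val n) = -HS n := by
      rw [← hz fun r => if 2 * r < n then 0 else jacobiSym r n]
      have h4 := sum_odd h1 h
      rw [← Finset.sum_filter_add_sum_filter_not (range n) (fun u => 2 * u < n)] at h4
      have h5 : ∑ r ∈ range n, (if 2 * r < n then 0 else jacobiSym (r : ℤ) n) =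
          ∑ r ∈ (range n).filter (fun u => ¬ 2 * u < n), jacobiSym (r : ℤ) n := by
        rw [Finset.sum_filter]
        refine Finset.sum_congr rfl fun r _ => ?_
        split_ifs <;> rfl
      rw [h5]
      unfold HS
      linarith
    have e7 : ∑ x : ZMod n, ((x.val : ℤ) * jacobiSym x.val n) = TT n :=
      (hz fun r => (r : ℤ) * jacobiSym r n).symm
    simp only [e3] at e2
    rw [← Finset.mul_sum, Finset.sum_sub_distrib, ← Finset.mul_sum, ← Finset.mul_sum, e6, e7] at e2
    linear_combination e2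
  have h5 : jacobiSym 2 n * jacobiSym 2 n = 1 := by
    have h6 : IsCoprime ((2 : ℕ) : ℤ) (n : ℤ) := Nat.isCoprime_iff_coprime.2 (Nat.coprime_two_left.2 hodd)
    have := jacobiSym.sq_one (a := 2) (b := n) (by exact_mod_cast h6)
    rw [sq] at this
    exact this
  linear_combination (-(2 * TT n + n * HS n)) * h5 - (jacobiSym 2 n) * e1

/-- the sum over the lattice points under the diagonal, endpoints excluded -/
def CS (A m : ℕ) : ℤ :=
  ∑ t ∈ range m, jacobiSym t m * ∑ k ∈ (range A).filter (fun k => k * m < A * t), jacobiSym k A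

/-- the residue of a pair -/
def rs (A m : ℕ) (q : ℕ × ℕ) : ℕ := (A * q.1 + (A * m - q.2 * m)) % (A * m)

lemma rs_cast {A m : ℕ} {q : ℕ × ℕ} (hq : q.2 ≤ A) :
    (((A * q.1 + (A * m - q.2 * m) : ℕ) : ℤ)) = A * q.1 + (A * m - q.2 * m) := by
  have : q.2 * m ≤ A * m := Nat.mul_le_mul_right m hq
  push_cast [this]
  ring

lemma crt_inj {A m : ℕ} (hc : Nat.Coprime A m) :
    Set.InjOn (rs A m) (range m ×ˢ range A : Finset (ℕ × ℕ)) := by
  intro q hq q' hq' he
  simp only [Finset.coe_product, Set.mem_prod, Finset.coe_range, Set.mem_Iio] at hq hq'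
  have h0 : (A * q.1 + (A * m - q.2 * m)) ≡ (A * q'.1 + (A * m - q'.2 * m)) [MOD (A * m)] := he
  have h2 := (Nat.modEq_iff_dvd.1 h0)
  rw [rs_cast hq.2.le, rs_cast hq'.2.le] at h2
  have h3 : (m : ℤ) ∣ (A : ℤ) * ((q.1 : ℤ) - q'.1) := by
    have h4 : (m : ℤ) ∣ ((A * m : ℕ) : ℤ) := ⟨A, by push_cast; ring⟩
    obtain ⟨k, hk⟩ := h4.trans h2
    exact ⟨-k + (q.2 - q'.2), by linear_combination -hk⟩
  have h5 : (A : ℤ) ∣ (m : ℤ) * ((q.2 : ℤ) - q'.2) := by
    have h4 : (A : ℤ) ∣ ((A * m : ℕ) : ℤ) := ⟨m, by push_cast; ring⟩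
    obtain ⟨k, hk⟩ := h4.trans h2
    exact ⟨(q.1 - q'.1) + k, by linear_combination hk⟩
  have hc' : IsCoprime (A : ℤ) (m : ℤ) := Nat.isCoprime_iff_coprime.2 hc
  have h6 := hc'.symm.dvd_of_dvd_mul_left h3
  have h7 := hc'.dvd_of_dvd_mul_left h5
  have key : ∀ (a b N : ℕ), a < N → b < N → (N : ℤ) ∣ (a : ℤ) - b → a = b := by
    intro a b N ha hb h
    have := Int.eq_zero_of_abs_lt_dvd h (by rw [abs_lt]; constructor <;> omega)
    omega
  exact Prod.ext (key _ _ _ hq.1 hq'.1 h6) (key _ _ _ hq.2 hq'.2 h7)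

/-- the bijection of the Chinese remainder theorem -/
lemma crt_sum {A m : ℕ} (hA : 0 < A) (hm : 0 < m) (hc : Nat.Coprime A m) (f : ℕ → ℤ) :
    ∑ r ∈ range (A * m), f r = ∑ q ∈ range m ×ˢ range A, f (rs A m q) := by
  have hn : 0 < A * m := Nat.mul_pos hA hm
  have h1 : (range m ×ˢ range A).image (rs A m) = range (A * m) := by
    refine Finset.eq_of_subset_of_card_le ?_ ?_
    · intro r hr
      obtain ⟨q, -, rfl⟩ := Finset.mem_image.1 hr
      exact Finset.mem_range.2 (Nat.mod_lt _ hn)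
    · rw [Finset.card_image_of_injOn (crt_inj hc), Finset.card_product, Finset.card_range,
        Finset.card_range, Finset.card_range, mul_comm]
  rw [← h1, Finset.sum_image (crt_inj hc)]

/-- the integer representing the residue -/
lemma rs_eq {A m : ℕ} (hA : 0 < A) (hm : 0 < m) {q : ℕ × ℕ} (h1 : q.1 < m) (h2 : q.2 < A) :
    ((rs A m q : ℕ) : ℤ) = A * q.1 - q.2 * m + (if q.2 * m ≤ A * q.1 then 0 else A * m) := by
  have h3 : q.2 * m ≤ A * m := Nat.mul_le_mul_right m h2.le
  have h4 : A * q.1 < A * m := Nat.mul_lt_mul_of_pos_left h1 hA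
  have h5 : q.2 * m < A * m := Nat.mul_lt_mul_of_pos_right h2 hm
  unfold rs
  split_ifs with h
  · have e : A * q.1 + (A * m - q.2 * m) = (A * q.1 - q.2 * m) + A * m := by omega
    rw [e, Nat.add_mod_right, Nat.mod_eq_of_lt (by omega)]
    push_cast [h]
    ring
  · rw [Nat.mod_eq_of_lt (by omega)]
    push_cast [h3]
    ring

/-- **reciprocity**: the lattice point sum of two quadratic characters -/
theorem ded {A m : ℕ} (hA : 1 < A) (hm : 1 < m) (hA4 : A % 4 = 1) (hm4 : m % 4 = 3)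
    (hc : Nat.Coprime A m) (hs : ∑ k ∈ range A, jacobiSym (k : ℤ) A = 0) :
    TT (A * m) = -((A * m : ℕ) : ℤ) * CS A m := by
  have hAo : Odd A := Nat.odd_iff.2 (by omega)
  have hmo : Odd m := Nat.odd_iff.2 (by omega)
  have hm1 : jacobiSym (-1) m = -1 := by
    rw [jacobiSym.at_neg_one hmo, ZMod.χ₄_nat_three_mod_four hm4]
  have hA1 : jacobiSym (-1) A = 1 := by
    rw [jacobiSym.at_neg_one hAo, ZMod.χ₄_nat_one_mod_four hA4]
  have hsm := sum_odd hm hm1
  have hrec : jacobiSym (A : ℤ) m * jacobiSym (m : ℤ) A = 1 := by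
    have h1 : jacobiSym (A : ℤ) m = jacobiSym (m : ℤ) A :=
      jacobiSym.quadratic_reciprocity_one_mod_four hA4 hmo
    rw [h1, ← sq]
    exact jacobiSym.sq_one (by rw [Int.gcd_natCast_natCast]; exact hc.symm)
  have hchar : ∀ q : ℕ × ℕ, q.2 ≤ A →
      jacobiSym ((rs A m q : ℕ) : ℤ) (A * m : ℕ) = jacobiSym q.1 m * jacobiSym q.2 A := by
    intro q hq
    have e1 : jacobiSym ((rs A m q : ℕ) : ℤ) (A * m : ℕ) =
        jacobiSym (A * q.1 + (A * m - q.2 * m) : ℤ) (A * m : ℕ) := by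
      unfold rs
      rw [← rs_cast hq, Int.natCast_mod, ← jacobiSym.mod_left]
    rw [e1, jacobiSym.mul_right' _ (by omega) (by omega)]
    have e2 : jacobiSym (A * q.1 + (A * m - q.2 * m) : ℤ) A = jacobiSym q.2 A * jacobiSym m A := by
      have : (A * q.1 + (A * m - q.2 * m) : ℤ) = (-1) * (q.2 * m) + A * (q.1 + m) := by ring
      rw [this, jacobiSym.mod_left, Int.add_mul_emod_self_left, ← jacobiSym.mod_left,
        jacobiSym.mul_left, hA1, one_mul, jacobiSym.mul_left]
    have e3 : jacobiSym (A * q.1 + (A * m - q.2 * m) : ℤ) m = jacobiSym A m * jacobiSym q.1 m := by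
      have : (A * q.1 + (A * m - q.2 * m) : ℤ) = (A * q.1) + m * (A - q.2) := by ring
      rw [this, jacobiSym.mod_left, Int.add_mul_emod_self_left, ← jacobiSym.mod_left,
        jacobiSym.mul_left]
    rw [e2, e3]
    linear_combination (jacobiSym q.1 m * jacobiSym q.2 A) * hrec
  unfold TT
  rw [crt_sum (by omega) (by omega) hc, Finset.sum_product]
  have h1 : ∀ t ∈ range m, ∑ k ∈ range A, ((rs A m (t, k) : ℕ) : ℤ) *
      jacobiSym ((rs A m (t, k) : ℕ) : ℤ) (A * m : ℕ) =
      (A * t * jacobiSym t m) * (∑ k ∈ range A, jacobiSym (k : ℤ) A) -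
      m * jacobiSym t m * (∑ k ∈ range A, (k : ℤ) * jacobiSym (k : ℤ) A) +
      A * m * (jacobiSym t m * ((∑ k ∈ range A, jacobiSym (k : ℤ) A) -
        ∑ k ∈ (range A).filter (fun k => k * m < A * t), jacobiSym (k : ℤ) A)) := by
    intro t ht
    have ht' := Finset.mem_range.1 ht
    rw [Finset.sum_filter, ← Finset.sum_sub_distrib, Finset.mul_sum, Finset.mul_sum, Finset.mul_sum,
      Finset.mul_sum, ← Finset.sum_sub_distrib, ← Finset.sum_add_distrib]
    refine Finset.sum_congr rfl fun k hk => ?_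
    have hk' := Finset.mem_range.1 hk
    rw [hchar (t, k) hk'.le, rs_eq (q := (t, k)) (by omega) (by omega) ht' hk']
    simp only
    rcases lt_trichotomy (k * m) (A * t) with h | h | h
    · rw [if_pos h.le, if_pos h]
      ring
    · -- the character vanishes
      have h2 : m ∣ A * t := ⟨k, by rw [← h, mul_comm]⟩
      have h3 : m ∣ t := hc.symm.dvd_of_dvd_mul_left h2
      have h4 : t = 0 := Nat.eq_zero_of_dvd_of_lt h3 ht'
      subst h4
      rw [jac_zero hm]
      ring
    · rw [if_neg (by omega), if_neg (by omega)]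
      push_cast
      ring
  rw [Finset.sum_congr rfl h1, hs]
  simp only [mul_zero, zero_sub]
  unfold CS
  rw [Finset.sum_add_distrib, Finset.sum_neg_distrib, ← Finset.mul_sum, ← Finset.sum_mul,
    ← Finset.mul_sum]
  rw [hsm]
  simp only [mul_neg, Finset.sum_neg_distrib]
  push_cast
  ring

/-- the lattice point sum and the half sum -/
theorem ded_half {A m : ℕ} (hA : 1 < A) (hm : 1 < m) (hA4 : A % 4 = 1) (hm4 : m % 4 = 3)
    (hc : Nat.Coprime A m) (hs : ∑ k ∈ range A, jacobiSym (k : ℤ) A = 0) :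
    (2 - jacobiSym 2 (A * m : ℕ)) * CS A m = HS (A * m) := by
  have hn4 : (A * m) % 4 = 3 := by
    rw [Nat.mul_mod, hA4, hm4]
  have hno : Odd (A * m) := Nat.odd_iff.2 (by omega)
  have hn1 : 1 < A * m := by nlinarith
  have h1 := two_TT hn1 hno (by rw [jacobiSym.at_neg_one hno, ZMod.χ₄_nat_three_mod_four hn4])
  rw [ded hA hm hA4 hm4 hc hs] at h1
  have hn : ((A * m : ℕ) : ℤ) ≠ 0 := by exact_mod_cast (by omega : A * m ≠ 0)
  apply mul_left_cancel₀ hn
  linear_combination -h1

/-- a sum over the residues -/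
lemma sum_zmod {n : ℕ} [NeZero n] (f : ℕ → ℤ) : ∑ r ∈ range n, f r = ∑ x : ZMod n, f x.val := by
  symm
  refine Finset.sum_nbij (fun x => x.val) (fun x _ => Finset.mem_range.2 (ZMod.val_lt x)) ?_ ?_ ?_
  · intro x _ y _ hxy
    exact ZMod.val_injective n hxy
  · intro r hr
    refine ⟨(r : ZMod n), Finset.mem_coe.2 (Finset.mem_univ _), ?_⟩
    exact ZMod.val_cast_of_lt (Finset.mem_range.1 hr)
  · intro x _
    rfl

/-- the symbol of a product of residues -/
lemma jac_val_mul {n : ℕ} [NeZero n] (x y : ZMod n) : jacobiSym (((x * y).val : ℕ) : ℤ) n =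
    jacobiSym x.val n * jacobiSym y.val n := by
  rw [ZMod.val_mul, ← jacobiSym.mul_left, jacobiSym.mod_left, jacobiSym.mod_left (_ * _)]
  push_cast
  rw [Int.emod_emod_of_dvd _ (dvd_refl _)]

lemma sum_char_zero {A : ℕ} (hA : 0 < A) {w : ℕ} (hw : Nat.Coprime w A)
    (hj : jacobiSym w A = -1) : ∑ k ∈ range A, jacobiSym (k : ℤ) A = 0 := by
  have hn0 : NeZero A := ⟨by omega⟩
  have h2 : IsUnit (w : ZMod A) := (ZMod.isUnit_iff_coprime w A).2 hw
  have hb : Function.Bijective fun x : ZMod A => (w : ZMod A) * x :=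
    Finite.injective_iff_bijective.1 (h2.mul_right_injective)
  have h3 := sum_zmod (n := A) fun k => jacobiSym (k : ℤ) A
  rw [← hb.sum_comp (g := fun x : ZMod A => jacobiSym ((x.val : ℕ) : ℤ) A)] at h3
  simp only [jac_val_mul] at h3
  rw [← Finset.mul_sum, ← sum_zmod (n := A) fun k => jacobiSym (k : ℤ) A] at h3
  have h4 : jacobiSym (((w : ZMod A).val : ℕ) : ℤ) A = -1 := by
    rw [ZMod.val_natCast, Int.natCast_mod, ← jacobiSym.mod_left, hj]
  rw [h4] at h3
  linarith

lemma exists_neg_one {A : ℕ} (hA : 1 < A) (ho : Odd A) (hsq : Squarefree A) :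
    ∃ w : ℕ, Nat.Coprime w A ∧ jacobiSym w A = -1 := by
  obtain ⟨p, hpp, hpA⟩ := Nat.exists_prime_and_dvd hA.ne'
  haveI : Fact p.Prime := ⟨hpp⟩
  obtain ⟨Q, rfl⟩ := hpA
  have hcop : Nat.Coprime p Q := Nat.coprime_of_squarefree_mul hsq
  have hp2 : p ≠ 2 := by
    rintro rfl
    exact (Nat.not_odd_iff_even.2 (even_two_mul Q)) ho
  have hchar : ringChar (ZMod p) ≠ 2 := by
    rw [ZMod.ringChar_zmod_n]; exact hp2
  obtain ⟨t, ht⟩ := quadraticChar_exists_neg_one hchar
  obtain ⟨n, hn1, hn2⟩ := Nat.chineseRemainder hcop t.val 1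
  have hjp : jacobiSym (n : ℤ) p = -1 := by
    have h3 : jacobiSym (t.val : ℤ) p = -1 := by
      rw [← jacobiSym.legendreSym.to_jacobiSym, legendreSym]
      simpa using ht
    rw [← h3]
    refine jacobiSym.mod_left' ?_
    exact_mod_cast hn1
  have hjQ : jacobiSym (n : ℤ) Q = 1 := by
    have h3 : jacobiSym ((1 : ℕ) : ℤ) Q = 1 := by simp
    rw [← h3]
    refine jacobiSym.mod_left' ?_
    exact_mod_cast hn2
  have hQ0 : Q ≠ 0 := by
    rintro rfl
    simp at hA
  have h5 : jacobiSym (n : ℤ) (p * Q : ℕ) = -1 := by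
    rw [jacobiSym.mul_right' _ hpp.ne_zero hQ0, hjp, hjQ]
    norm_num
  refine ⟨n, ?_, h5⟩
  by_contra h
  have : jacobiSym (n : ℤ) (p * Q : ℕ) = 0 := by
    rw [jacobiSym.eq_zero_iff]
    refine ⟨by omega, ?_⟩
    rw [Int.gcd_natCast_natCast]
    exact h
  rw [this] at h5
  norm_num at h5

lemma sum_sqf {A : ℕ} (hA : 1 < A) (ho : Odd A) (hsq : Squarefree A) :
    ∑ k ∈ range A, jacobiSym (k : ℤ) A = 0 := by
  obtain ⟨w, h1, h2⟩ := exists_neg_one hA ho hsq
  exact sum_char_zero (by omega) h1 h2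

end Pool.Agent.N809.PG
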