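import Pool.Agent.N809.PG.Ded

/-!
The boundary sums for general real characters.
-/

set_option autoImplicit false

open Finset

namespace Pool.Agent.N809.PG

/-- a real character as a function on the integers -/
structure Chr (N : ℕ) (f : ℤ → ℤ) : Prop where
  per : ∀ u v : ℤ, (N : ℤ) ∣ u - v → f u = f v
  mul : ∀ u v : ℤ, f (u * v) = f u * f v
  zero : ∀ u : ℕ, ¬ Nat.Coprime u N → f u = 0
  one : f 1 = 1

/-- the units -/
def uu (m : ℕ) : Finset ℕ := (range m).filter fun u => Nat.Coprime u m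

/-- the boundary term -/
def Bd (A : ℕ) (f : ℤ → ℤ) (x M : ℤ) : ℤ :=
  ∑ C ∈ range A, f C * Int.sign ((A : ℤ) * (x % M) - (C : ℤ) * M)

/-- the sum over the lattice points under the diagonal -/
def CG (A m : ℕ) (f g : ℤ → ℤ) : ℤ :=
  ∑ t ∈ range m, g t * ∑ k ∈ (range A).filter (fun k => k * m < A * t), f k

/-- the sum of the multiples -/
def TG (n : ℕ) (h : ℤ → ℤ) : ℤ := ∑ r ∈ range n, (r : ℤ) * h r

namespace Chr

variable {N : ℕ} {f : ℤ → ℤ} (hf : Chr N f)
include hf

lemma z0 (hN : 1 < N) : f 0 = 0 := by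
  have := hf.zero 0 (by rw [Nat.coprime_zero_left]; omega)
  exact_mod_cast this

lemma sq {u : ℤ} (v : ℤ) (h : f (u * v) = 1) : f u * f u = 1 := by
  rw [hf.mul] at h
  rcases Int.mul_eq_one_iff_eq_one_or_neg_one.1 h with ⟨h1, -⟩ | ⟨h1, -⟩ <;> rw [h1] <;> norm_num

lemma sq2 (hodd : Odd N) : f 2 * f 2 = 1 := by
  have hc : IsCoprime (2 : ℤ) (N : ℤ) := by
    have := Nat.isCoprime_iff_coprime.2 (Nat.coprime_two_left.2 hodd)
    exact_mod_cast this
  obtain ⟨a, b, hab⟩ := hc
  refine hf.sq a ?_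
  rw [← hf.one]
  refine hf.per _ _ ⟨-b, ?_⟩
  linear_combination hab

lemma uu_sum (g : ℕ → ℤ) :
    ∑ t ∈ uu N, f t * g t = ∑ t ∈ range N, f t * g t := by
  unfold uu
  rw [Finset.sum_filter]
  refine Finset.sum_congr rfl fun t ht => ?_
  split_ifs with h
  · rfl
  · rw [hf.zero t h, zero_mul]

/-- an odd character has sum zero -/
lemma sum_neg (hN : 1 < N) (h : f (-1) = -1) : ∑ r ∈ range N, f r = 0 := by
  have h2 : ∑ r ∈ range N, f r = -∑ r ∈ range N, f r := by
    obtain ⟨k, rfl⟩ : ∃ k, N = k + 1 := ⟨N - 1, by omega⟩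
    have h0 := hf.z0 hN
    rw [Finset.sum_range_succ']
    push_cast
    rw [h0, add_zero]
    conv_lhs => rw [← Finset.sum_range_reflect]
    rw [← Finset.sum_neg_distrib]
    refine Finset.sum_congr rfl fun j hj => ?_
    have hj' := Finset.mem_range.1 hj
    have e : f (((k - 1 - j : ℕ) : ℤ) + 1) = f ((-1) * ((j : ℤ) + 1)) := by
      refine hf.per _ _ ⟨1, ?_⟩
      push_cast [Nat.cast_sub (show 1 ≤ k by omega), Nat.cast_sub (show j ≤ k - 1 by omega)]
      ring
    rw [e, hf.mul, h]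
    ring
  linarith

end Chr

/-- **reciprocity**: the lattice point sum of two characters -/
theorem dedG {A m : ℕ} (hA : 1 < A) (hm : 1 < m) (hc : Nat.Coprime A m) {f g h : ℤ → ℤ}
    (hf : Chr A f) (hg : Chr m g) (hfg : ∀ u, h u = f u * g u) (h1 : f (-1) = 1)
    (h2 : g (-1) = -1) (hs : ∑ k ∈ range A, f k = 0) (hrec : f m * g A = 1) :
    TG (A * m) h = -((A * m : ℕ) : ℤ) * CG A m f g := by
  have hsm := hg.sum_neg hm h2
  have hchar : ∀ q : ℕ × ℕ, q.2 ≤ A → h ((rs A m q : ℕ) : ℤ) = g q.1 * f q.2 := by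
    intro q hq
    have e0 : ((A * m : ℕ) : ℤ) ∣ ((rs A m q : ℕ) : ℤ) - (A * q.1 + (A * m - q.2 * m) : ℤ) := by
      unfold rs
      rw [← rs_cast hq, Int.natCast_mod]
      exact (Int.ModEq.dvd (Int.mod_modEq _ _).symm)
    have dA : (A : ℤ) ∣ ((A * m : ℕ) : ℤ) := ⟨m, by push_cast; ring⟩
    have dm : (m : ℤ) ∣ ((A * m : ℕ) : ℤ) := ⟨A, by push_cast; ring⟩
    have e2 : f ((rs A m q : ℕ) : ℤ) = f q.2 * f m := by
      rw [hf.per _ _ (dA.trans e0)]
      have : f (A * q.1 + (A * m - q.2 * m) : ℤ) = f ((-1) * (q.2 * m)) :=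
        hf.per _ _ ⟨q.1 + m, by ring⟩
      rw [this, hf.mul, h1, one_mul, hf.mul]
    have e3 : g ((rs A m q : ℕ) : ℤ) = g A * g q.1 := by
      rw [hg.per _ _ (dm.trans e0)]
      have : g (A * q.1 + (A * m - q.2 * m) : ℤ) = g (A * q.1) :=
        hg.per _ _ ⟨A - q.2, by ring⟩
      rw [this, hg.mul]
    rw [hfg, e2, e3]
    linear_combination (g q.1 * f q.2) * hrec
  unfold TG
  rw [crt_sum (by omega) (by omega) hc, Finset.sum_product]
  have h1 : ∀ t ∈ range m, ∑ k ∈ range A, ((rs A m (t, k) : ℕ) : ℤ) *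
      h ((rs A m (t, k) : ℕ) : ℤ) =
      (A * t * g t) * (∑ k ∈ range A, f k) -
      m * g t * (∑ k ∈ range A, (k : ℤ) * f k) +
      A * m * (g t * ((∑ k ∈ range A, f k) -
        ∑ k ∈ (range A).filter (fun k => k * m < A * t), f k)) := by
    intro t ht
    have ht' := Finset.mem_range.1 ht
    rw [Finset.sum_filter, ← Finset.sum_sub_distrib, Finset.mul_sum, Finset.mul_sum, Finset.mul_sum,
      Finset.mul_sum, ← Finset.sum_sub_distrib, ← Finset.sum_add_distrib]
    refine Finset.sum_congr rfl fun k hk => ?_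
    have hk' := Finset.mem_range.1 hk
    rw [hchar (t, k) hk'.le, rs_eq (q := (t, k)) (by omega) (by omega) ht' hk']
    simp only
    rcases lt_trichotomy (k * m) (A * t) with h | h | h
    · rw [if_pos h.le, if_pos h]
      ring
    · -- the character vanishes
      have h2 : m ∣ A * t := ⟨k, by rw [← h, mul_comm]⟩
      have h3 : m ∣ t := hc.symm.dvd_of_dvd_mul_left h2
      have h4 : t = 0 := Nat.eq_zero_of_dvd_of_lt h3 ht'
      subst h4
      have h5 := hg.z0 hm
      push_cast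
      rw [h5]
      ring
    · rw [if_neg (by omega), if_neg (by omega)]
      push_cast
      ring
  rw [Finset.sum_congr rfl h1, hs]
  simp only [mul_zero, zero_sub]
  unfold CG
  rw [Finset.sum_add_distrib, Finset.sum_neg_distrib, ← Finset.mul_sum, ← Finset.sum_mul,
    ← Finset.mul_sum]
  rw [hsm]
  simp only [mul_neg, Finset.sum_neg_distrib]
  push_cast
  ring

/-- the sum of the multiples for a character of even conductor -/
theorem TG_half {k : ℕ} {h : ℤ → ℤ} (hh : ∀ u : ℤ, h (k + u) = -h u) :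
    2 * TG (k + k) h = -((k + k : ℕ) : ℤ) * ∑ u ∈ (range (k + k)).filter (fun u => 2 * u < k + k), h u := by
  have h1 : (range (k + k)).filter (fun u => 2 * u < k + k) = range k := by
    ext u
    simp only [Finset.mem_filter, Finset.mem_range]
    omega
  rw [h1]
  unfold TG
  rw [Finset.sum_range_add, ← Finset.sum_add_distrib]
  have h2 : ∀ u ∈ range k, (u : ℤ) * h u + ((k + u : ℕ) : ℤ) * h ((k + u : ℕ) : ℤ) = -(k * h u) := by
    intro u _
    push_cast
    rw [hh]
    ring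
  rw [Finset.sum_congr rfl h2, Finset.sum_neg_distrib, ← Finset.mul_sum]
  push_cast
  ring

section lines

variable {A m : ℕ} {f g : ℤ → ℤ}

lemma Bd_inner (hm : 1 < m) (hc : Nat.Coprime A m) {u : ℕ} (hu : u < m)
    (hcu : Nat.Coprime u m) (hs : ∑ k ∈ range A, f k = 0) :
    Bd A f u m = 2 * ∑ k ∈ (range A).filter (fun k => k * m < A * u), f k := by
  have e0 : ((u : ℤ) % (m : ℤ)) = u := Int.emod_eq_of_lt (by positivity) (by exact_mod_cast hu)
  unfold Bd
  rw [e0]
  have h1 : ∀ C ∈ range A, f C * Int.sign ((A : ℤ) * u - C * m) =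
      2 * (if C * m < A * u then f C else 0) - f C := by
    intro C hC
    rcases lt_trichotomy (C * m) (A * u) with h | h | h
    · rw [if_pos h, Int.sign_eq_one_of_pos (by
        have : ((C * m : ℕ) : ℤ) < ((A * u : ℕ) : ℤ) := by exact_mod_cast h
        push_cast at this
        linarith)]
      ring
    · exfalso
      have h2 : m ∣ A * u := ⟨C, by rw [← h, mul_comm]⟩
      have h3 : m ∣ u := hc.symm.dvd_of_dvd_mul_left h2
      have h4 : u = 0 := Nat.eq_zero_of_dvd_of_lt h3 hu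
      subst h4
      rw [Nat.coprime_zero_left] at hcu
      omega
    · rw [if_neg (by omega), Int.sign_eq_neg_one_of_neg (by
        have : ((A * u : ℕ) : ℤ) < ((C * m : ℕ) : ℤ) := by exact_mod_cast h
        push_cast at this
        linarith)]
      ring
  rw [Finset.sum_congr rfl h1, Finset.sum_sub_distrib, hs, sub_zero, ← Finset.mul_sum,
    Finset.sum_filter]

theorem lineA (hm : 1 < m) (hc : Nat.Coprime A m) (hg : Chr m g)
    (hs : ∑ k ∈ range A, f k = 0) :
    ∑ u ∈ uu m, g u * Bd A f u m = 2 * CG A m f g := by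
  unfold CG
  rw [← hg.uu_sum fun t => ∑ k ∈ (range A).filter (fun k => k * m < A * t), f k,
    Finset.mul_sum]
  refine Finset.sum_congr rfl fun u hu => ?_
  unfold uu at hu
  rw [Finset.mem_filter, Finset.mem_range] at hu
  rw [Bd_inner hm hc hu.1 hu.2 hs]
  ring

/-- doubling -/
lemma val_doubleG {n : ℕ} [NeZero n] (x : ZMod n) :
    (((x + x).val : ℕ) : ℤ) = 2 * (x.val : ℤ) - (if 2 * x.val < n then (0 : ℤ) else (n : ℤ)) := by
  have h3 := ZMod.val_lt x
  rw [ZMod.val_add]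
  split_ifs with h4
  · rw [Nat.mod_eq_of_lt (by omega)]
    push_cast
    ring
  · rw [Nat.mod_eq_sub_mod (by omega), Nat.mod_eq_of_lt (by omega), Nat.cast_sub (by omega)]
    push_cast
    ring

lemma double_bijG {n : ℕ} [NeZero n] (hodd : Odd n) :
    Function.Bijective fun x : ZMod n => x + x := by
  have h2 : IsUnit (2 : ZMod n) := by
    have := (ZMod.isUnit_iff_coprime 2 n).2 (Nat.coprime_two_left.2 hodd)
    exact_mod_cast this
  have : (fun x : ZMod n => x + x) = fun x => 2 * x := by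
    ext x
    rw [two_mul]
  rw [this]
  exact Finite.injective_iff_bijective.1 (h2.mul_right_injective)

lemma f_double {n : ℕ} [NeZero n] (hf : Chr n f) (x : ZMod n) :
    f (((x + x).val : ℕ) : ℤ) = f 2 * f x.val := by
  rw [val_doubleG, ← hf.mul]
  refine hf.per _ _ ?_
  split_ifs
  · exact ⟨0, by ring⟩
  · exact ⟨-1, by ring⟩

/-- reindexing by doubling -/
lemma sum_doubleG {n : ℕ} [NeZero n] (hodd : Odd n) (hf : Chr n f) (g : ℤ → ℤ) :
    ∑ x : ZMod n, f x.val * g ((x + x).val : ℕ) = f 2 * ∑ k ∈ range n, f (k : ℤ) * g k := by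
  rw [sum_zmod fun k => f (k : ℤ) * g k,
    ← (double_bijG hodd).sum_comp (g := fun x : ZMod n => f ((x.val : ℕ) : ℤ) * g x.val)]
  simp only [f_double hf]
  have h5 := hf.sq2 hodd
  rw [Finset.mul_sum]
  refine Finset.sum_congr rfl fun x _ => ?_
  linear_combination (-(f x.val * g ((x + x).val : ℕ))) * h5

/-- the half sums of an even character -/
lemma half_evenG [NeZero A] (hA : 1 < A) (ho : Odd A) (hf : Chr A f) (hf1 : f (-1) = 1) :
    ∑ x : ZMod A, f x.val * (if 2 * x.val < A then 1 else -1) = 0 := by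
  set G : ZMod A → ℤ := fun x => f x.val * (if 2 * x.val < A then (1 : ℤ) else -1) with hG
  have h1 : ∑ x : ZMod A, G (-x) = ∑ x : ZMod A, G x := Fintype.sum_equiv (Equiv.neg (ZMod A)) _ _
    fun x => rfl
  have h2 : ∀ x : ZMod A, G (-x) = -G x := by
    intro x
    simp only [hG]
    by_cases h0 : x = 0
    · subst h0
      have := hf.z0 hA
      rw [neg_zero, ZMod.val_zero]
      push_cast
      rw [this]
      ring
    · have h3 : (-x).val = A - x.val := by
        rw [ZMod.neg_val, if_neg h0]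
      have h4 := ZMod.val_lt x
      have h5 : 0 < x.val := Nat.pos_of_ne_zero fun h => h0 ((ZMod.val_eq_zero x).1 h)
      have h6 : f (((A - x.val : ℕ)) : ℤ) = f x.val := by
        rw [← one_mul (f x.val), ← hf1, ← hf.mul]
        refine hf.per _ _ ⟨1, ?_⟩
        rw [Nat.cast_sub h4.le]
        ring
      rw [h3, h6]
      obtain ⟨j, hj⟩ := ho
      have h7 : 2 * x.val ≠ A := by omega
      split_ifs <;> first | (exfalso; omega) | ring
  change ∑ x : ZMod A, G x = 0
  simp only [h2] at h1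
  rw [Finset.sum_neg_distrib] at h1
  linarith

/-- the distribution relation at two, odd modulus -/
theorem dist_odd (hA : 1 < A) (hodd : Odd A) (hf : Chr A f) (h1 : f (-1) = 1) {u : ℕ}
    (hu : u < m) : Bd A f u (2 * m) + Bd A f (u + m) (2 * m) = f 2 * Bd A f u m := by
  have : NeZero A := ⟨by omega⟩
  have e0 : ((u : ℤ) % (m : ℤ)) = u := Int.emod_eq_of_lt (by positivity) (by exact_mod_cast hu)
  have e1 : ((u : ℤ) % (2 * m : ℤ)) = u := Int.emod_eq_of_lt (by positivity) (by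
    have : (u : ℤ) < m := by exact_mod_cast hu
    linarith)
  have e2 : (((u : ℤ) + m) % (2 * m : ℤ)) = u + m := Int.emod_eq_of_lt (by positivity) (by
    have : (u : ℤ) < m := by exact_mod_cast hu
    linarith)
  unfold Bd
  rw [e0, e1, e2, ← sum_doubleG hodd hf (fun C => Int.sign ((A : ℤ) * u - C * m)),
    ← Finset.sum_add_distrib]
  have h3 : ∀ C : ℕ, f (C : ℤ) * Int.sign ((A : ℤ) * u - (C : ℤ) * (2 * m)) +
      f (C : ℤ) * Int.sign ((A : ℤ) * (u + m) - (C : ℤ) * (2 * m)) =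
      (fun C : ℕ => f (C : ℤ) * (Int.sign ((A : ℤ) * u - (C : ℤ) * (2 * m)) +
        Int.sign ((A : ℤ) * (u + m) - (C : ℤ) * (2 * m)))) C := fun C => by
    simp only
    ring
  rw [Finset.sum_congr rfl fun C _ => h3 C, sum_zmod]
  have h4 := half_evenG hA hodd hf h1
  rw [← sub_eq_zero, ← Finset.sum_sub_distrib, ← h4]
  refine Finset.sum_congr rfl fun x _ => ?_
  have h5 := ZMod.val_lt x
  rw [val_doubleG]
  have hu' : (u : ℤ) < m := by exact_mod_cast hu
  have hu0 : (0 : ℤ) ≤ u := by positivity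
  have hx' : (x.val : ℤ) < A := by exact_mod_cast h5
  have hx0 : (0 : ℤ) ≤ x.val := by positivity
  have hA0 : (0 : ℤ) < A := by exact_mod_cast (by omega : 0 < A)
  split_ifs with h6
  · have h7 : (2 * (x.val : ℤ)) < A := by exact_mod_cast h6
    have h8 : Int.sign ((A : ℤ) * (u + m) - (x.val : ℤ) * (2 * m)) = 1 :=
      Int.sign_eq_one_of_pos (by nlinarith)
    rw [h8, sub_zero]
    have h9 : (A : ℤ) * u - (x.val : ℤ) * (2 * m) = (A : ℤ) * u - 2 * (x.val : ℤ) * m := by ring
    rw [h9]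
    ring
  · have h7 : (A : ℤ) < (2 * (x.val : ℤ)) := by
      have : A < 2 * x.val := by
        obtain ⟨j, hj⟩ := hodd
        have : 2 * x.val ≠ A := by omega
        omega
      exact_mod_cast this
    have h8 : Int.sign ((A : ℤ) * u - (x.val : ℤ) * (2 * m)) = -1 :=
      Int.sign_eq_neg_one_of_neg (by nlinarith)
    rw [h8]
    have h9 : (A : ℤ) * (u + m) - (x.val : ℤ) * (2 * m) =
      (A : ℤ) * u - (2 * (x.val : ℤ) - A) * m := by ring
    rw [h9]
    ring

/-- the sum over the first half -/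
lemma half_zero {k : ℕ} (hk : 0 < k) (hf : Chr (k + k) f) (h1 : f (-1) = 1)
    (hh : ∀ u : ℤ, f (k + u) = -f u) : ∑ C ∈ range k, f C = 0 := by
  have e0 : f 0 = 0 := hf.z0 (by omega)
  have ek : f k = 0 := by
    have := hh 0
    rw [add_zero, e0] at this
    linarith
  have h2 : ∑ C ∈ range k, f C = -∑ C ∈ range k, f C := by
    have h3 : ∑ C ∈ range (k + 1), f C = ∑ C ∈ range k, f C := by
      rw [Finset.sum_range_succ, ek, add_zero]
    rw [← h3]
    conv_lhs => rw [← Finset.sum_range_reflect]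
    rw [← Finset.sum_neg_distrib]
    refine Finset.sum_congr rfl fun j hj => ?_
    have hj' := Finset.mem_range.1 hj
    have e : (((k + 1 - 1 - j : ℕ)) : ℤ) = k + (-1) * (j : ℤ) := by
      rw [Nat.add_sub_cancel, Nat.cast_sub (by omega : j ≤ k)]
      ring
    rw [e, hh, hf.mul, h1, one_mul]
  linarith

/-- the distribution relation at two, even modulus -/
theorem dist_even {k : ℕ} (hk : 0 < k) (hf : Chr (k + k) f) (h1 : f (-1) = 1)
    (hh : ∀ u : ℤ, f (k + u) = -f u) {u : ℕ} (hu : u < m) :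
    Bd (k + k) f u (2 * m) + Bd (k + k) f (u + m) (2 * m) = f 2 * Bd (k + k) f u m := by
  have e1 : ((u : ℤ) % (2 * m : ℤ)) = u := Int.emod_eq_of_lt (by positivity) (by
    have : (u : ℤ) < m := by exact_mod_cast hu
    linarith)
  have e2 : (((u : ℤ) + m) % (2 * m : ℤ)) = u + m := Int.emod_eq_of_lt (by positivity) (by
    have : (u : ℤ) < m := by exact_mod_cast hu
    linarith)
  have f2 : f 2 = 0 := by
    have := hf.zero 2 (by
      rw [Nat.coprime_two_left]
      rw [Nat.not_odd_iff_even]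
      exact ⟨k, rfl⟩)
    exact_mod_cast this
  rw [f2, zero_mul]
  unfold Bd
  rw [e1, e2, ← Finset.sum_add_distrib, Finset.sum_range_add, ← Finset.sum_add_distrib]
  have hu' : (u : ℤ) < m := by exact_mod_cast hu
  have hu0 : (0 : ℤ) ≤ u := by positivity
  have hk0 : (0 : ℤ) < k := by exact_mod_cast hk
  have h3 : ∀ C ∈ range k, f C * Int.sign (((k + k : ℕ) : ℤ) * u - (C : ℤ) * (2 * m)) +
      f C * Int.sign (((k + k : ℕ) : ℤ) * (u + m) - (C : ℤ) * (2 * m)) +
      (f ((k + C : ℕ) : ℤ) * Int.sign (((k + k : ℕ) : ℤ) * u - ((k + C : ℕ) : ℤ) * (2 * m)) +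
      f ((k + C : ℕ) : ℤ) * Int.sign (((k + k : ℕ) : ℤ) * (u + m) - ((k + C : ℕ) : ℤ) * (2 * m))) =
      2 * f C := by
    intro C hC
    have hC' : (C : ℤ) < k := by exact_mod_cast Finset.mem_range.1 hC
    have hC0 : (0 : ℤ) ≤ C := by positivity
    push_cast
    rw [hh]
    have s1 : Int.sign (((k : ℤ) + k) * (u + m) - (C : ℤ) * (2 * m)) = 1 :=
      Int.sign_eq_one_of_pos (by nlinarith)
    have s2 : Int.sign (((k : ℤ) + k) * u - ((k : ℤ) + C) * (2 * m)) = -1 :=
      Int.sign_eq_neg_one_of_neg (by nlinarith)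
    have s3 : ((k : ℤ) + k) * (u + m) - ((k : ℤ) + C) * (2 * m) =
      ((k : ℤ) + k) * u - (C : ℤ) * (2 * m) := by ring
    rw [s1, s2, s3]
    ring
  rw [Finset.sum_congr rfl h3, ← Finset.mul_sum, half_zero hk hf h1 hh, mul_zero]

lemma Bd_per (x y : ℤ) (M : ℤ) (h : x % M = y % M) : Bd A f x M = Bd A f y M := by
  unfold Bd
  rw [h]

/-- the sum over the doubled cusps, odd modulus -/
theorem dbl_odd (hm : 1 < m) (hmo : Odd m) (hg : Chr m g) :
    ∑ u ∈ uu m, g u * Bd A f (2 * u) m = g 2 * ∑ u ∈ uu m, g u * Bd A f u m := by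
  have : NeZero m := ⟨by omega⟩
  rw [hg.uu_sum fun u => Bd A f (2 * u) m, hg.uu_sum fun u => Bd A f u m,
    ← sum_doubleG hmo hg (fun u => Bd A f u m), sum_zmod fun u => g (u : ℤ) * Bd A f (2 * u) m]
  refine Finset.sum_congr rfl fun x _ => ?_
  congr 1
  rw [val_doubleG]
  refine Bd_per _ _ _ ?_
  split_ifs
  · rw [sub_zero]
  · rw [Int.sub_emod_right]

/-- the sum over the doubled cusps, even modulus -/
theorem dbl_even {k : ℕ} (hg : Chr (k + k) g) (hh : ∀ u : ℤ, g (k + u) = -g u) :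
    ∑ u ∈ uu (k + k), g u * Bd A f (2 * u) ((k + k : ℕ) : ℤ) =
      g 2 * ∑ u ∈ uu (k + k), g u * Bd A f u ((k + k : ℕ) : ℤ) := by
  have g2 : g 2 = 0 := by
    have := hg.zero 2 (by
      rw [Nat.coprime_two_left]
      rw [Nat.not_odd_iff_even]
      exact ⟨k, rfl⟩)
    exact_mod_cast this
  rw [g2, zero_mul, hg.uu_sum fun u => Bd A f (2 * u) ((k + k : ℕ) : ℤ), Finset.sum_range_add,
    ← Finset.sum_add_distrib]
  refine Finset.sum_eq_zero fun u _ => ?_
  have e : Bd A f (2 * ((k + u : ℕ) : ℤ)) ((k + k : ℕ) : ℤ) = Bd A f (2 * u) ((k + k : ℕ) : ℤ) := by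
    refine Bd_per _ _ _ ?_
    have : (2 * ((k + u : ℕ) : ℤ)) = 2 * (u : ℤ) + ((k + k : ℕ) : ℤ) := by
      push_cast
      ring
    rw [this, Int.add_emod_right]
  rw [e]
  push_cast
  rw [hh]
  ring

/-- a modulus with the half period -/
def HP (N : ℕ) (f : ℤ → ℤ) : Prop := Odd N ∨ ∃ k : ℕ, 0 < k ∧ N = k + k ∧ ∀ u : ℤ, f (k + u) = -f u

/-- the sum over the three cusps -/
theorem lineB (hA : 1 < A) (hm : 1 < m) (hf : Chr A f) (hg : Chr m g) (h1 : f (-1) = 1)
    (pf : HP A f) (pg : HP m g) :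
    ∑ u ∈ uu m, g u * (Bd A f (2 * u) m + Bd A f u (2 * m) + Bd A f (u + m) (2 * m)) =
      (f 2 + g 2) * ∑ u ∈ uu m, g u * Bd A f u m := by
  have hd : ∀ u : ℕ, u < m → Bd A f u (2 * m) + Bd A f (u + m) (2 * m) = f 2 * Bd A f u m := by
    intro u hu
    rcases pf with ho | ⟨k, hk, rfl, hh⟩
    · exact dist_odd hA ho hf h1 hu
    · exact dist_even hk hf h1 hh hu
  have hdb : ∑ u ∈ uu m, g u * Bd A f (2 * u) m = g 2 * ∑ u ∈ uu m, g u * Bd A f u m := by
    rcases pg with ho | ⟨k, hk, rfl, hh⟩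
    · exact dbl_odd hm ho hg
    · exact dbl_even hg hh
  have h2 : ∑ u ∈ uu m, g u * (Bd A f (2 * u) m + Bd A f u (2 * m) + Bd A f (u + m) (2 * m)) =
      ∑ u ∈ uu m, g u * Bd A f (2 * u) m + ∑ u ∈ uu m, g u * (f 2 * Bd A f u m) := by
    rw [← Finset.sum_add_distrib]
    refine Finset.sum_congr rfl fun u hu => ?_
    unfold uu at hu
    rw [Finset.mem_filter, Finset.mem_range] at hu
    rw [← hd u hu.1]
    ring
  have h3 : ∑ u ∈ uu m, g u * (f 2 * Bd A f u m) = f 2 * ∑ u ∈ uu m, g u * Bd A f u m := by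
    rw [Finset.mul_sum]
    refine Finset.sum_congr rfl fun u _ => ?_
    ring
  rw [h2, h3, hdb]
  ring

/-- an even character of even modulus has sum zero -/
lemma sum_half {k : ℕ} (hh : ∀ u : ℤ, f (k + u) = -f u) : ∑ C ∈ range (k + k), f C = 0 := by
  rw [Finset.sum_range_add, ← Finset.sum_add_distrib]
  refine Finset.sum_eq_zero fun u _ => ?_
  push_cast
  rw [hh]
  ring

end lines

end Pool.Agent.N809.PG
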